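import Pool.Agent.Lib.MP_1a91b9_nuX.TH.Na
import Pool.Agent.Lib.MP_1a91b9_nuX.TC.Tw
import Pool.Agent.Lib.MP_1a91b9_nuX.TC.Sub

/-!
# The Hecke character of a form of the curve over `N` which becomes trivial over `F = N F₀`
-/

set_option autoImplicit false

namespace Pool.Agent.Lib.MP_1a91b9_nuX.TH

open NumberField IsDedekindDomain WeierstrassCurve Module Pool.Agent.Lib.MP_1a91b9_nuT
open Pool.Agent.Lib.MP_1a91b9_nt (nrm nrm_eq)
open Pool.Agent.Lib.MP_1a91b9_nuX.DB Pool.Agent.Lib.MP_1a91b9_nuX.GL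
open Pool.Agent.Lib.MP_1a91b9_nuX.PG (Gd)
open Pool.Agent.Lib.MP_1a91b9_nuX.PH
open Pool.Agent.Lib.MP_1a91b9_nuX.TG Pool.Agent.Lib.MP_1a91b9_nuX.TC
open Pool.Agent.Lib.MP_1a91b9_nuX.AN
open Pool.Agent.Lib.MP_1a91b9_nuT.CF (IsFr)

universe u

variable [CD]

/-- the curve has good reduction at the places which do not divide `f` -/
theorem gd_E [HC] {F : Type u} [Field F] [NumberField F] [Algebra K F]
    {w : HeightOneSpectrum (𝓞 F)} (hf : HC.f ∉ (w.under (𝓞 K)).asIdeal) : Gd (E F) w := by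
  have h1 : Gd (E K) (w.under (𝓞 K)) := GL.good_of_f hf
  have h2 := gd_up (F := F) h1
  rwa [TG.E_map] at h2

section
variable {N F : Type u} [Field N] [NumberField N] [Field F] [NumberField F] [Algebra N F]
  [IsGalois N F]

/-- good reduction goes down in an unramified extension -/
theorem gd_down {W : WeierstrassCurve N} {w : HeightOneSpectrum (𝓞 F)}
    (hr : ¬ CF.Ram F (w.under (𝓞 N))) (h : Gd (W.map (algebraMap N F)) w) :
    Gd W (w.under (𝓞 N)) := by
  obtain ⟨⟨u, r, s, t⟩, hC⟩ := h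
  have hu : (u : F) ≠ 0 := u.ne_zero
  have eu : Units.mk0 (u : F) hu = u := Units.ext rfl
  refine GM.desc_good (u := (u : F)) (r := r) (s := s) (t := t) hu (fun σ hσ => ?_) (by
    rw [eu]
    exact hC)
  have h1 := CF.fix_of_triv (k := N) (L := F) w σ hr hσ
  exact ⟨h1 _, h1 _, h1 _, h1 _⟩

end

section
variable [HC] {N F : Type u} [Field N] [NumberField N] [Algebra K N] [Field F] [NumberField F]
  [Algebra K F] [Algebra N F] [IsScalarTower K N F] [IsGalois N F]

/-- **The character of a form of the curve.** -/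
theorem exists_thW (hE : EllK) {W : WeierstrassCurve N} {D₀ : VariableChange F}
    (hD : D₀ • W.map (algebraMap N F) = E F) :
    ∃ θ : Gal(F/N) →* (𝓞 K)ˣ, ∀ w : HeightOneSpectrum (𝓞 F),
      HC.f ∉ ((w.under (𝓞 N)).under (𝓞 K)).asIdeal → ¬ CF.Ram F (w.under (𝓞 N)) →
      Gd W (w.under (𝓞 N)) → ∀ σ : Gal(F/N), IsFr (w.under (𝓞 N)) w σ →
      Hv W (w.under (𝓞 N)) = ((θ σ : (𝓞 K)ˣ) : 𝓞 K) * psi N (w.under (𝓞 N)).asIdeal := by
  classical
  have hF : Algebra.IsAlgebraic K F := by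
    have h1 : Algebra.IsAlgebraic ℚ F := Algebra.IsAlgebraic.of_finite ℚ F
    exact Algebra.IsAlgebraic.tower_top (K := ℚ) K
  obtain ⟨ι⟩ : Nonempty (F →ₐ[K] Kb) := ⟨IsAlgClosed.lift⟩
  let aF : Algebra F Kb := (ι : F →+* Kb).toAlgebra
  let aN : Algebra N Kb := ((ι : F →+* Kb).comp (algebraMap N F)).toAlgebra
  have t1 : IsScalarTower K F Kb := IsScalarTower.of_algebraMap_eq fun x => (ι.commutes x).symm
  have t2 : IsScalarTower N F Kb := IsScalarTower.of_algebraMap_eq fun x => rfl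
  have t3 : IsScalarTower K N Kb := IsScalarTower.of_algebraMap_eq fun x => by
    rw [IsScalarTower.algebraMap_apply K F Kb, IsScalarTower.algebraMap_apply K N F,
      ← IsScalarTower.algebraMap_apply N F Kb]
  have hD' : (D₀⁻¹).map (algebraMap F Kb) • EF Kb = W.map (algebraMap N Kb) := by
    have e1 : EF Kb = (E F).map (algebraMap F Kb) := by
      refine WeierstrassCurve.ext ?_ ?_ ?_ ?_ ?_
      · exact (map_zero (algebraMap K Kb)).trans (map_zero _).symm
      · exact (map_zero (algebraMap K Kb)).trans (map_zero _).symm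
      · exact (map_zero (algebraMap K Kb)).trans (map_zero _).symm
      · exact (map_intCast (algebraMap K Kb) _).trans (map_intCast _ _).symm
      · exact (map_intCast (algebraMap K Kb) _).trans (map_intCast _ _).symm
    rw [e1, WeierstrassCurve.map_variableChange, ← hD, inv_smul_smul, WeierstrassCurve.map_map]
    rfl
  obtain ⟨θ, hθ⟩ := exists_thF hD'
  refine ⟨θ, fun w hf hr hg σ hσ => twist_psi hD' hθ hf hr hσ ?_⟩
  have hW : Fm W := ⟨IsScalarTower.toAlgHom K N Kb, _, hD'⟩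
  have h1 := hv_fri hE hW hg (IsScalarTower.toAlgHom K N Kb) _ hD'
  exact (fri_iff (F := N)).1 h1

end

/-- the complex character -/
noncomputable def thC {G : Type*} [Group G] (θ : G →* (𝓞 K)ˣ) : G →* ℂˣ :=
  (Units.map (((starRingEnd ℂ).comp (embK.toRingHom.comp (algebraMap (𝓞 K) K))) :
    𝓞 K →* ℂ)).comp θ

theorem thC_apply {G : Type*} [Group G] (θ : G →* (𝓞 K)ˣ) (σ : G) :
    ((thC θ σ : ℂˣ) : ℂ) = (starRingEnd ℂ) (embK (((θ σ : (𝓞 K)ˣ) : 𝓞 K) : K)) := rfl

/-- The character of the form `W` of the curve is the character of the curve times the ray class character `c` modulo `M`. -/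
structure ChW [HC] {N : Type u} [Field N] [NumberField N] [Algebra K N]
    (W : WeierstrassCurve N) (M : Ideal (𝓞 N)) (c : Ideal (𝓞 N) → ℂ) : Prop where
  ne : M ≠ 0
  rc : RC M c
  gd : ∀ v : HeightOneSpectrum (𝓞 N), ¬ M ≤ v.asIdeal → Gd W v
  val : ∀ v : HeightOneSpectrum (𝓞 N), ¬ M ≤ v.asIdeal →
    (starRingEnd ℂ) (embK (Hv W v : K)) = psbC N v.asIdeal * c v.asIdeal

end Pool.Agent.Lib.MP_1a91b9_nuX.TH
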