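import Pool.Agent.Lib.MP_1a91b9_nuX.TH.Dat
import Pool.Agent.Lib.MP_1a91b9_nuX.QW.Defs
import Pool.Agent.Lib.MP_1a91b9_nuX.LF.NiceD
import Pool.Agent.Lib.MP_1a91b9_nuT.PL.Disc

/-!
# Good reduction of the forms of the curve above `ℓ`
-/

set_option autoImplicit false

namespace Pool.Agent.Lib.MP_1a91b9_nuX.TH

open NumberField IsDedekindDomain WeierstrassCurve Module WithZero Pool.Agent.Lib.MP_1a91b9_nuT
open Pool.Agent.Lib.MP_1a91b9_nuT.DB (od val_eq val_lt_one_iff)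
open Pool.Agent.Lib.MP_1a91b9_nuX.DB Pool.Agent.Lib.MP_1a91b9_nuX.GL
open Pool.Agent.Lib.MP_1a91b9_nuG (up)
open Pool.Agent.Lib.MP_1a91b9_nuX.PG (Gd)
open Pool.Agent.Lib.MP_1a91b9_nuX.PH
open Pool.Agent.Lib.MP_1a91b9_nuX.TG Pool.Agent.Lib.MP_1a91b9_nuX.TC
open Pool.Agent.Lib.MP_1a91b9_nuT.Per (cv)

variable [CD]

/-- a global good model gives a good model over the completion -/
theorem gdA_of_gd {N : Type} [Field N] [NumberField N] {W : WeierstrassCurve N} {a b : N}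
    {D : VariableChange N} (hD : D • W = cv a b) {v : HeightOneSpectrum (𝓞 N)}
    (h : Gd W v) : QW.GdA a b v := by
  classical
  obtain ⟨C, hC⟩ := (LG.gd_iso hD v).1 h
  refine ⟨C.map (algebraMap N (v.adicCompletion N)), ?_⟩
  have e : C.map (algebraMap N (v.adicCompletion N)) • (cv a b).baseChange (v.adicCompletion N) =
      (C • cv a b).map (algebraMap N (v.adicCompletion N)) :=
    WeierstrassCurve.map_variableChange _ _ _
  rw [e]
  refine GM.good_map (fun x => ?_) hC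
  rw [show (Valued.v : Valuation (v.adicCompletion N) ℤᵐ⁰)
    (algebraMap N (v.adicCompletion N) x) = v.valuation N x from
    HeightOneSpectrum.valuedAdicCompletion_eq_valuation' v _]

/-- nothing above `ℓ` ramifies -/
theorem not_ram_unrL {ℓ : ℕ} {N F : Type} [Field N] [NumberField N] [Field F] [NumberField F]
    [Algebra N F] (h : DS.UnrL ℓ F) (hℓ : ℓ ≠ 0) {v : HeightOneSpectrum (𝓞 N)}
    (hq : (ℓ : 𝓞 N) ∈ v.asIdeal) : ¬ MP_1a91b9_nuG.Ram F v := by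
  rintro ⟨w, hw⟩
  have h1 : algebraMap (𝓞 N) (𝓞 F) (ℓ : 𝓞 N) ∈ w.asIdeal ^ 2 := hw (Ideal.mem_map_of_mem _ hq)
  rw [map_natCast] at h1
  have hl0 : (ℓ : F) ≠ 0 := Nat.cast_ne_zero.2 hℓ
  have e0 : algebraMap (𝓞 F) F (ℓ : 𝓞 F) = (ℓ : F) := map_natCast (algebraMap (𝓞 F) F) ℓ
  have h2 : w.valuation F (ℓ : F) ≤ WithZero.exp (-((2 : ℕ) : ℤ)) := by
    rw [← e0, w.valuation_of_algebraMap (K := F), w.intValuation_le_pow_iff_mem]
    exact h1
  have h3 : 2 ≤ od w (ℓ : F) := by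
    rw [val_eq w hl0, WithZero.exp_le_exp] at h2
    push_cast at h2
    omega
  have h4 : w.valuation F (ℓ : F) < 1 := (val_lt_one_iff w hl0).2 (by omega)
  have h5 := h w h4
  omega

/-- a quadratic extension is Galois -/
theorem galois_two {N F : Type} [Field N] [NumberField N] [Field F] [NumberField F]
    [Algebra N F] (h2 : finrank N F = 2) : IsGalois N F := by
  have hq : Algebra.IsQuadraticExtension N F := ⟨h2⟩
  exact ⟨⟩

variable [HC]

section
variable {ℓ : ℕ} [hℓ : Fact ℓ.Prime] {μ c : 𝓞 K} {N F F₀ : Type} [Field N] [NumberField N]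
  [Algebra K N] [Field F] [NumberField F] [Algebra K F] [Field F₀] [NumberField F₀]
  [Algebra K F₀] [Algebra N F] [Algebra F₀ F] [IsScalarTower K N F]

/-- good reduction above `ℓ` over a field which contains `K` -/
theorem gd_ell_K {W : WeierstrassCurve N} {D₀ : VariableChange F}
    (h : DatH ℓ μ c N F F₀ W D₀) (v : HeightOneSpectrum (𝓞 N)) (hv : (ℓ : 𝓞 N) ∈ v.asIdeal) :
    Gd W v := by
  have hG := h.gal
  have hgood := h.good.good
  obtain ⟨w, rfl⟩ := CF.exists_over (k := N) (N := F) v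
  refine gd_down (F := F) (fun h1 => not_ram_unrL h.good.unr hℓ.out.ne_zero hv
    ((MP_1a91b9_nuG.ram_eq _).2 h1)) ?_
  refine (LG.gd_iso h.iso w).2 (gd_E fun hf => ?_)
  obtain ⟨x, y, hxy⟩ := f_coprime hℓ.out hgood
  apply ((w.under (𝓞 K))).isPrime.ne_top
  rw [Ideal.eq_top_iff_one, ← hxy]
  refine (w.under (𝓞 K)).asIdeal.add_mem (Ideal.mul_mem_left _ _ hf) (Ideal.mul_mem_left _ _ ?_)
  change algebraMap (𝓞 K) (𝓞 F) (ℓ : 𝓞 K) ∈ w.asIdeal
  rw [map_natCast]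
  have hv' : algebraMap (𝓞 N) (𝓞 F) (ℓ : 𝓞 N) ∈ w.asIdeal := hv
  rwa [map_natCast] at hv'

/-- good reduction above `ℓ` over a field which does not contain `K` -/
theorem gd_ell_N {N₁ : Type} [Field N₁] [NumberField N₁] [Algebra N₁ N]
    (h2 : finrank N₁ N = 2) {W : WeierstrassCurve N₁} {D₀ : VariableChange F}
    (h : DatH ℓ μ c N F F₀ (W.map (algebraMap N₁ N)) D₀) (v : HeightOneSpectrum (𝓞 N₁))
    (hv : (ℓ : 𝓞 N₁) ∈ v.asIdeal) : Gd W v := by
  have hG : IsGalois N₁ N := galois_two h2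
  obtain ⟨w, rfl⟩ := CF.exists_over (k := N₁) (N := N) v
  have hu : DS.UnrL ℓ N := MP_1a91b9_nuT.TG.unrL_down hℓ.out.ne_zero h.good.unr
  refine gd_down (F := N) (fun h1 => not_ram_unrL hu hℓ.out.ne_zero hv
    ((MP_1a91b9_nuG.ram_eq _).2 h1)) (gd_ell_K h w ?_)
  have hv' : algebraMap (𝓞 N₁) (𝓞 N) (ℓ : 𝓞 N₁) ∈ w.asIdeal := hv
  rwa [map_natCast] at hv'

end

end Pool.Agent.Lib.MP_1a91b9_nuX.TH
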