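import Pool.Agent.Lib.MP_1a91b9_nuX.TH.Chr

/-!
# Descent of the nonvanishing and of the unit property to the forms of the curve over `N`
-/

set_option autoImplicit false

namespace Pool.Agent.Lib.MP_1a91b9_nuX.TH

open NumberField IsDedekindDomain WeierstrassCurve Module Pool.Agent.Lib.MP_1a91b9_nuT
open Pool.Agent.Lib.MP_1a91b9_nuX.DB Pool.Agent.Lib.MP_1a91b9_nuX.GL
open Pool.Agent.Lib.MP_1a91b9_nuG (up)
open Pool.Agent.Lib.MP_1a91b9_nuX.PG (Gd)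
open Pool.Agent.Lib.MP_1a91b9_nuX.PH
open Pool.Agent.Lib.MP_1a91b9_nuX.TG Pool.Agent.Lib.MP_1a91b9_nuX.TC
open Pool.Agent.Lib.MP_1a91b9_nuX.AN
open Pool.Agent.Lib.MP_1a91b9_nuT.CF (IsFr)

variable [CD] [HC]

theorem gB_cop {ℓ : ℕ} (hℓ : ℓ.Prime) (hD : ¬ (ℓ : ℤ) ∣ CD.bad) {μ : 𝓞 K}
    (hμ : ¬ ℓ ∣ nAb μ) : IsCoprime (gB μ) (ℓ : 𝓞 K) := by
  refine (f_coprime hℓ hD).mul_left (IsCoprime.mul_left ?_ ?_)
  · have h2 : IsCoprime CD.bad (ℓ : ℤ) :=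
      ((Prime.coprime_iff_not_dvd (Nat.prime_iff_prime_int.1 hℓ)).2 hD).symm
    have h3 := h2.map (Int.castRingHom (𝓞 K))
    rwa [eq_intCast, eq_intCast, Int.cast_natCast] at h3
  · exact Nat.Coprime.cast (((Nat.Prime.coprime_iff_not_dvd hℓ).2 hμ).symm)

theorem gB_span_cop {ℓ : ℕ} (hℓ : ℓ.Prime) (hD : ¬ (ℓ : ℤ) ∣ CD.bad) {μ : 𝓞 K}
    (hμ : ¬ ℓ ∣ nAb μ) (N : Type*) [Field N] [NumberField N] [Algebra K N] :
    IsCoprime (Ideal.span {up (gB μ) N}) (Ideal.span {(ℓ : 𝓞 N)}) := by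
  have h1 := (gB_cop hℓ hD hμ).map (algebraMap (𝓞 K) (𝓞 N))
  rw [map_natCast] at h1
  exact (Ideal.isCoprime_span_singleton_iff _ _).2 h1

theorem span_gB_ne {μ : 𝓞 K} (hμ : μ ≠ 0) (N : Type*) [Field N] [NumberField N] [Algebra K N] :
    Ideal.span {up (gB μ) N} ≠ 0 := by
  rw [Ne, Ideal.zero_eq_bot, Ideal.span_singleton_eq_bot]
  intro h0
  exact gB_ne hμ ((FaithfulSMul.algebraMap_injective (𝓞 K) (𝓞 N)) (by rw [map_zero]; exact h0))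

/-- **Descent to a form of the curve over `N`.** -/
theorem exists_chW (hE : EllK) {μ : 𝓞 K} (N F F₀ L' : Type) [Field N] [NumberField N]
    [Algebra K N] [Field F]
    [NumberField F] [Algebra K F] [Field F₀] [NumberField F₀] [Algebra K F₀] [Field L']
    [NumberField L'] [Algebra K L'] [Algebra N F] [Algebra F₀ F] [Algebra F₀ L']
    [IsScalarTower K N F] [IsScalarTower K F₀ F] [IsScalarTower K F₀ L'] [IsGalois K L']
    [DecidableEq L'] {T : Pt L'} (hT : AbT μ K T)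
    (hgen : IntermediateField.adjoin N (Set.range (algebraMap F₀ F)) = ⊤)
    {W : WeierstrassCurve N} {D₀ : VariableChange F} (hD : D₀ • W.map (algebraMap N F) = E F) :
    ∃ c : Ideal (𝓞 N) → ℂ, ChW W (Ideal.span {up (gB μ) N}) c ∧ (LGood F → LGoodT N c) ∧
      ∀ ℓ : ℕ, ℓ.Prime → ¬ (ℓ : ℤ) ∣ CD.bad → ¬ ℓ ∣ nAb μ → ¬ ℓ ∣ 2 ^ finrank K F - 1 →
        (∀ q : HeightOneSpectrum (𝓞 K), (ℓ : 𝓞 K) ∈ q.asIdeal → ¬ MP_1a91b9_nuT3.Ram F q) →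
        NaG ℓ μ F → UnitProp ℓ Om F → UnitT ℓ Om N c := by
  have hGal : IsGalois N F := TC.galois_sub N F F₀ L' hT hgen
  obtain ⟨θ, hθ⟩ := exists_thW hE hD
  have hM0 := span_gB_ne hT.ne N
  obtain ⟨c, h1, h2, h3⟩ := exists_ch N F F₀ L' hT hgen hM0 le_rfl (thC θ)
  have hmem : ∀ {v : HeightOneSpectrum (𝓞 N)}, ¬ Ideal.span {up (gB μ) N} ≤ v.asIdeal →
      HC.f ∉ (v.under (𝓞 K)).asIdeal := by
    intro v hv hf
    apply hv
    rw [Ideal.span_singleton_le_iff_mem]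
    exact v.asIdeal.mem_of_dvd (map_dvd (algebraMap (𝓞 K) (𝓞 N)) (f_dvd_gB μ)) hf
  have hgd : ∀ v : HeightOneSpectrum (𝓞 N), ¬ Ideal.span {up (gB μ) N} ≤ v.asIdeal →
      Gd W v := by
    intro v hv
    obtain ⟨w, rfl⟩ := CF.exists_over (k := N) (N := F) v
    refine gd_down (fun h => h1.unr _ hv ((MP_1a91b9_nuG.ram_eq _).2 h)) ?_
    have h4 : HC.f ∉ (w.under (𝓞 K)).asIdeal := by
      have h5 := hmem hv
      have e : ((w.under (𝓞 N)).under (𝓞 K)) = w.under (𝓞 K) :=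
        HeightOneSpectrum.ext (Ideal.under_under _)
      rwa [e] at h5
    exact (LG.gd_iso hD w).2 (gd_E h4)
  refine ⟨c, ⟨hM0, h1.rc, hgd, fun v hv => ?_⟩, h2,
    fun ℓ hℓ hD hμ e2 hu hna h => h3 ℓ hℓ hD (gB_span_cop hℓ hD hμ N) e2 hu (fun w hw hf => ?_) h⟩
  · obtain ⟨w, rfl⟩ := CF.exists_over (k := N) (N := F) v
    obtain ⟨σ, hσ⟩ := CF.exists_fr (k := N) w
    have hr : ¬ CF.Ram F (w.under (𝓞 N)) := fun h => h1.unr _ hv ((MP_1a91b9_nuG.ram_eq _).2 h)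
    have e1 := hθ w (hmem hv) hr (hgd _ hv) σ hσ
    have e2 := h1.fr _ hv w σ rfl hσ
    rw [e1, e2, thC_apply]
    have e3 : (((((θ σ : (𝓞 K)ˣ) : 𝓞 K) * psi N (w.under (𝓞 N)).asIdeal : 𝓞 K)) : K) =
        (((θ σ : (𝓞 K)ˣ) : 𝓞 K) : K) * (psi N (w.under (𝓞 N)).asIdeal : K) :=
      map_mul (algebraMap (𝓞 K) K) _ _
    rw [e3, map_mul, map_mul, mul_comm]
    rfl
  · refine hna w ?_ hf
    rw [Ideal.map_span, Set.image_singleton, Ideal.span_singleton_le_iff_mem] at hw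
    have e : algebraMap (𝓞 N) (𝓞 F) (up (gB μ) N) = up (gB μ) F :=
      MP_1a91b9_nuT3.S8.algebraMap_tower (F := N) (F' := F) (gB μ)
    rwa [e] at hw

end Pool.Agent.Lib.MP_1a91b9_nuX.TH
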