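import Pool.Agent.Lib.MP_1a91b9_nuX.TH.Twr
import Pool.Agent.Lib.MP_1a91b9_nuX.TH.Chw
import Pool.Agent.Lib.MP_1a91b9_nuX.TC.Cls
import Pool.Agent.Lib.MP_1a91b9_nuX.PX.Dat

/-!
# The hypotheses of the `ℓ`-part of the formula for the forms of the curve over the subfields of `L`
-/

set_option autoImplicit false

namespace Pool.Agent.Lib.MP_1a91b9_nuX.TH

open NumberField IsDedekindDomain WeierstrassCurve Module IntermediateField
  Pool.Agent.Lib.MP_1a91b9_nuT
open Pool.Agent.Lib.MP_1a91b9_nuX.DB Pool.Agent.Lib.MP_1a91b9_nuX.GL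
open Pool.Agent.Lib.MP_1a91b9_nuX.DS (TowerG)
open Pool.Agent.Lib.MP_1a91b9_nuG (up)
open Pool.Agent.Lib.MP_1a91b9_nuX.PH
open Pool.Agent.Lib.MP_1a91b9_nuX.TG Pool.Agent.Lib.MP_1a91b9_nuX.TC

variable [CD]

/-- a curve which becomes isomorphic to the curve over `L` is isomorphic to it over `F` -/
theorem iso_F {ℓ : ℕ} (h6 : ℓ.Coprime 6) (F₀ L M : Type) [Field F₀] [NumberField F₀]
    [Field L] [NumberField L] [Field M] [NumberField M]
    [Algebra F₀ L] [Algebra L M] [Algebra F₀ M] [IsScalarTower F₀ L M] (n : ℕ)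
    (hM : finrank F₀ M = ℓ ^ n) (N F : Type) [Field N] [NumberField N] [Field F] [NumberField F]
    [Algebra N F] [Algebra N L] [Algebra F L] [Algebra F₀ F] [IsScalarTower N F L]
    [IsScalarTower F₀ F L] {W : WeierstrassCurve N} {C : VariableChange L}
    (hC : C • W.baseChange L = E L) :
    ∃ D₀ : VariableChange F, D₀ • W.map (algebraMap N F) = E F := by
  let aFM : Algebra F M := ((algebraMap L M).comp (algebraMap F L)).toAlgebra
  have t1 : IsScalarTower F₀ F M := IsScalarTower.of_algebraMap_eq fun x => by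
    change algebraMap F₀ M x = algebraMap L M (algebraMap F L (algebraMap F₀ F x))
    rw [← IsScalarTower.algebraMap_apply F₀ F L, ← IsScalarTower.algebraMap_apply F₀ L M]
  have hfd : FiniteDimensional F M := Module.Finite.of_restrictScalars_finite ℚ F M
  have hdv : finrank F M ∣ ℓ ^ n := by
    rw [← hM, ← Module.finrank_mul_finrank F₀ F M]
    exact dvd_mul_left _ _
  refine class_down (M := M) (Nat.Coprime.coprime_dvd_left hdv (h6.pow_left n))
    (W.map (algebraMap N F)) (C.map (algebraMap L M)) ?_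
  have e1 : (W.map (algebraMap N F)).baseChange M = (W.baseChange L).map (algebraMap L M) := by
    change (W.map (algebraMap N F)).map (algebraMap F M) = (W.map (algebraMap N L)).map _
    rw [WeierstrassCurve.map_map, WeierstrassCurve.map_map]
    congr 1
    refine RingHom.ext fun x => ?_
    change algebraMap L M (algebraMap F L (algebraMap N F x)) = algebraMap L M (algebraMap N L x)
    rw [← IsScalarTower.algebraMap_apply N F L]
  rw [e1, WeierstrassCurve.map_variableChange, hC]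
  exact TG.E_map _

variable [HC]

/-- a natural number divisible by `gB μ` -/
noncomputable def nG (μ : 𝓞 K) : ℕ := Ideal.absNorm (Ideal.span {gB μ})

theorem nG_ne {μ : 𝓞 K} (hμ : μ ≠ 0) : nG μ ≠ 0 := by
  rw [nG, Ne, Ideal.absNorm_eq_zero_iff, Ideal.span_singleton_eq_bot]
  exact gB_ne hμ

theorem gB_dvd_nG (μ : 𝓞 K) : gB μ ∣ ((nG μ : ℕ) : 𝓞 K) := by
  rw [← Ideal.mem_span_singleton]
  exact Ideal.absNorm_mem _

/-- The hypotheses of the `ℓ`-part of the formula for a form `W` of the curve over `N`, `F = N F₀`. -/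
structure DatH (ℓ : ℕ) [Fact ℓ.Prime] (μ c : 𝓞 K) (N F F₀ : Type) [Field N] [NumberField N]
    [Algebra K N] [Field F] [NumberField F] [Algebra K F] [Field F₀] [NumberField F₀]
    [Algebra K F₀] [Algebra N F] [Algebra F₀ F] (W : WeierstrassCurve N)
    (D₀ : VariableChange F) : Prop where
  mu : ¬ ℓ ∣ nAb μ
  gen : IntermediateField.adjoin N (Set.range (algebraMap F₀ F)) = ⊤
  gal : IsGalois N F
  good : GoodH ℓ F
  e2 : ¬ ℓ ∣ 2 ^ finrank K F - 1
  unr : ∀ q : HeightOneSpectrum (𝓞 K), (ℓ : 𝓞 K) ∈ q.asIdeal → ¬ MP_1a91b9_nuT3.Ram F q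
  nag : NaG ℓ μ F
  iso : D₀ • W.map (algebraMap N F) = E F
  nawF : NaW ℓ c (E F)
  naw : NaW ℓ c W
  fm : Fm W

section
variable {ℓ : ℕ} [hℓ : Fact ℓ.Prime] (hD : ¬ (ℓ : ℤ) ∣ CD.bad) (F₀ L M : Type) [Field F₀]
  [NumberField F₀]
  [Algebra K F₀] (hB : ∀ (F : Type) [Field F] [NumberField F] [Algebra K F],
    Cpy F₀ F → BaseH ℓ F) [Field L] [NumberField L] [Field M] [NumberField M] [Algebra K L]
  [Algebra K M] [Algebra F₀ L] [Algebra L M] [Algebra F₀ M] [IsScalarTower K F₀ L]
  [IsScalarTower K F₀ M] [IsScalarTower F₀ L M] [IsGalois F₀ M] (n : ℕ)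
  (hM : finrank F₀ M = ℓ ^ n) (hL : RamG ℓ F₀ L)
include hD hB hM hL

/-- The forms of the curve over the subfields `N` of `L` which contain `K`. -/
theorem datH_of_K (hE : EllK) {μ c : 𝓞 K} (hμ : ¬ ℓ ∣ nAb μ) (hna : NaG ℓ μ F₀)
    (hnw : NaW ℓ c (E F₀)) (L' : Type) [Field L'] [NumberField L'] [Algebra K L']
    [Algebra F₀ L'] [IsScalarTower K F₀ L'] [IsGalois K L'] [DecidableEq L'] {T : Pt L'}
    (hT : AbT μ K T) (N : Type) [Field N] [NumberField N] [Algebra K N] [Algebra N L]
    [IsScalarTower K N L] {W : WeierstrassCurve N} {C : VariableChange L}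
    (hC : C • W.baseChange L = E L) :
    ∃ (F : Type) (_ : Field F) (_ : NumberField F) (_ : Algebra K F) (_ : Algebra N F)
      (_ : Algebra F₀ F) (_ : IsScalarTower K N F) (_ : IsScalarTower K F₀ F)
      (D₀ : VariableChange F), DatH ℓ μ c N F F₀ W D₀ := by
  have h6 := coprime_six hℓ.out (five_le hℓ.out hD)
  obtain ⟨F, _, _, _, _, _, _, t1, t2, t3, t4, t5, hgen⟩ := exists_NF F₀ L N
  have hT' := tower_sub hℓ.out F₀ L M n hM hL F
  have hg := goodH_tower hD (fun F _ _ _ h => hB F h) F hT'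
  have h3 := e2_tower hℓ.out (fun F _ _ _ h => hB F h) hT'
  have hu := unr_tower hℓ.out (fun F _ _ _ h => hB F h) hT'
  -- the places above `μ`
  have hnM : NaG ℓ μ M := PX.nag_up_pow hℓ.out n hM hna
  have hwM : NaW ℓ c (E M) := naW_up hE hℓ.out h6 hM hnw
  let aFM : Algebra F M := ((algebraMap L M).comp (algebraMap F L)).toAlgebra
  have tKLM : ∀ x : K, algebraMap L M (algebraMap K L x) = algebraMap K M x := by
    intro x
    rw [IsScalarTower.algebraMap_apply K F₀ L, ← IsScalarTower.algebraMap_apply F₀ L M,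
      ← IsScalarTower.algebraMap_apply K F₀ M]
  have t6 : IsScalarTower K F M :=
    IsScalarTower.of_algebraMap_eq (R := K) (S := F) (A := M) fun x => by
      change algebraMap K M x = algebraMap L M (algebraMap F L (algebraMap K F x))
      rw [← IsScalarTower.algebraMap_apply K F L, tKLM]
  have hnF : NaG ℓ μ F := hnM.down
  have hGal : IsGalois N F := PX.galois_sub N F F₀ L' hT hgen
  have hwF : NaW ℓ c (E F) := naW_down (F := M) hE (fm_E F) (by
    rw [TG.E_map]
    exact hwM)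
  obtain ⟨D₀, hD₀⟩ := iso_F h6 F₀ L M n hM N F hC
  have hfm : Fm W := fm_up (fm_iso D₀ hD₀ (fm_E F))
  exact ⟨F, inferInstance, inferInstance, inferInstance, inferInstance, inferInstance,
    inferInstance, inferInstance, D₀, hμ, hgen, hGal, hg, h3, hu, hnF, hD₀, hwF,
    naW_down (F := F) hE hfm (naW_iso D₀ hD₀ hwF), hfm⟩

end

end Pool.Agent.Lib.MP_1a91b9_nuX.TH
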