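import Pool.Agent.Lib.MP_1a91b9_nuX.TH.Na
import Pool.Agent.Lib.MP_1a91b9_nuX.TC.Coc
import Pool.Agent.Lib.MP_1a91b9_nuX.TG.Abel

/-!
# A form of the curve over `N` which becomes isomorphic to the curve over `N F₀`, `F₀` inside the field of a torsion point
-/

set_option autoImplicit false

namespace Pool.Agent.Lib.MP_1a91b9_nuX.TH

open NumberField IsDedekindDomain WeierstrassCurve Module Pool.Agent.Lib.MP_1a91b9_nuT
open Pool.Agent.Lib.MP_1a91b9_nuX.DB Pool.Agent.Lib.MP_1a91b9_nuX.GL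
open Pool.Agent.Lib.MP_1a91b9_nuX.PG (Gd)
open Pool.Agent.Lib.MP_1a91b9_nuX.PH
open Pool.Agent.Lib.MP_1a91b9_nuX.TG Pool.Agent.Lib.MP_1a91b9_nuX.TC

variable [CD]

private theorem ab_restrict {L₁ L : Type} [Field L₁] [Algebra K L₁] [Field L] [Algebra K L]
    [Normal K L₁] (i : L₁ →ₐ[K] L) (σ : L ≃ₐ[K] L) :
    ∃ σ₁ : Gal(L₁/K), ∀ x, i (σ₁ x) = σ (i x) := by
  let _ : Algebra L₁ L := i.toRingHom.toAlgebra
  have _ : IsScalarTower K L₁ L := IsScalarTower.of_algebraMap_eq (fun x => (i.commutes x).symm)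
  exact ⟨σ.restrictNormal L₁, fun x => σ.restrictNormal_commutes L₁ x⟩

variable [HC]

/-- The form becomes isomorphic to the curve over the field of the points killed by `μ`. -/
theorem abW_of {μ : 𝓞 K} (N F F₀ L' : Type) [Field N] [NumberField N]
    [Algebra K N] [Field F]
    [NumberField F] [Algebra K F] [Field F₀] [NumberField F₀] [Algebra K F₀] [Field L']
    [NumberField L'] [Algebra K L'] [Algebra N F] [Algebra F₀ F] [Algebra F₀ L']
    [IsScalarTower K N F] [IsScalarTower K F₀ F] [IsScalarTower K F₀ L'] [IsGalois K L']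
    [DecidableEq L'] {T : Pt L'} (hT : AbT μ K T)
    (hgen : IntermediateField.adjoin N (Set.range (algebraMap F₀ F)) = ⊤)
    {W : WeierstrassCurve N} {D₀ : VariableChange F} (hD : D₀ • W.map (algebraMap N F) = E F) :
    AbW W μ := by
  classical
  have hF : Algebra.IsAlgebraic K F := by
    have h1 : Algebra.IsAlgebraic ℚ F := Algebra.IsAlgebraic.of_finite ℚ F
    exact Algebra.IsAlgebraic.tower_top (K := ℚ) K
  obtain ⟨ι⟩ : Nonempty (F →ₐ[K] Kb) := ⟨IsAlgClosed.lift⟩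
  obtain ⟨j, hj⟩ : ∃ j : L' →ₐ[K] Kb, ∀ x : F₀,
      j (algebraMap F₀ L' x) = ι (algebraMap F₀ F x) := by
    let a0 : Algebra F₀ Kb := (ι.comp (IsScalarTower.toAlgHom K F₀ F)).toRingHom.toAlgebra
    have t0 : IsScalarTower K F₀ Kb := IsScalarTower.of_algebraMap_eq fun x =>
      ((ι.comp (IsScalarTower.toAlgHom K F₀ F)).commutes x).symm
    have h1 : Algebra.IsAlgebraic ℚ L' := Algebra.IsAlgebraic.of_finite ℚ L'
    have h2 : Algebra.IsAlgebraic F₀ L' := Algebra.IsAlgebraic.tower_top (K := ℚ) F₀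
    obtain ⟨j₀⟩ : Nonempty (L' →ₐ[F₀] Kb) := ⟨IsAlgClosed.lift⟩
    exact ⟨j₀.restrictScalars K, fun x => j₀.commutes x⟩
  have hD' : (D₀⁻¹).map (ι : F →+* Kb) • EF Kb =
      W.map ((ι.comp (IsScalarTower.toAlgHom K N F) : N →ₐ[K] Kb) : N →+* Kb) := by
    have e1 : EF Kb = (E F).map (ι : F →+* Kb) := by
      refine WeierstrassCurve.ext ?_ ?_ ?_ ?_ ?_
      · exact (map_zero (algebraMap K Kb)).trans (map_zero _).symm
      · exact (map_zero (algebraMap K Kb)).trans (map_zero _).symm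
      · exact (map_zero (algebraMap K Kb)).trans (map_zero _).symm
      · exact (map_intCast (algebraMap K Kb) _).trans (map_intCast _ _).symm
      · exact (map_intCast (algebraMap K Kb) _).trans (map_intCast _ _).symm
    rw [e1, WeierstrassCurve.map_variableChange, ← hD, inv_smul_smul, WeierstrassCurve.map_map]
    rfl
  refine ⟨ι.comp (IsScalarTower.toAlgHom K N F), (D₀⁻¹).map (ι : F →+* Kb), hD',
    fun σ hσN hσ => ?_⟩
  have hn : Normal K L' := IsGalois.to_normal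
  obtain ⟨τ, hτ⟩ := ab_restrict j σ
  have h1 : ga σ (pm j T) = pm j T := by
    refine hσ _ ?_
    rw [← pm_sm, (hT.ord μ).2 dvd_rfl, map_zero]
  have h2 : pm j (ga τ T) = ga σ (pm j T) := by
    have e : ((σ : Kb →ₐ[K] Kb).restrictScalars K).comp j =
        j.comp ((τ : L' →ₐ[K] L').restrictScalars K) := by
      ext x
      exact (hτ x).symm
    unfold ga
    rw [WeierstrassCurve.Affine.Point.map_map, WeierstrassCurve.Affine.Point.map_map, e]
  have h3 : τ = 1 := hT.gen τ (pm_inj j (h2.trans h1))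
  have h4 : ∀ x : L', σ (j x) = j x := fun x => by
    rw [← hτ, h3, AlgEquiv.one_apply]
  have h5 : ∀ x : F, σ (ι x) = ι x := by
    obtain ⟨S, hS⟩ : ∃ S : Subfield F, ∀ x, x ∈ S ↔ σ (ι x) = ι x :=
      ⟨RingHom.eqLocusField ((σ : Kb →+* Kb).comp (ι : F →+* Kb)) (ι : F →+* Kb),
        fun x => Iff.rfl⟩
    obtain ⟨S', hS'⟩ : ∃ S' : IntermediateField N F, ∀ x, x ∈ S' ↔ x ∈ S :=
      ⟨S.toIntermediateField fun x => (hS _).2 (hσN x), fun x => Iff.rfl⟩
    have h6 : (⊤ : IntermediateField N F) ≤ S' := by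
      rw [← hgen, IntermediateField.adjoin_le_iff]
      rintro _ ⟨x, rfl⟩
      rw [SetLike.mem_coe, hS', hS, ← hj, h4]
    intro x
    rw [← hS, ← hS']
    exact h6 IntermediateField.mem_top
  exact trs_fix (N := K) (h5 _) (h5 _) (h5 _) (h5 _)

end Pool.Agent.Lib.MP_1a91b9_nuX.TH
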