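import Pool.Agent.Lib.MP_1a91b9_nuX.TH.Ser
import Pool.Agent.Lib.MP_1a91b9_nuX.BR.Main

/-!
# The L-series of a form of the curve in terms of the series of `ψbar c`
-/

set_option autoImplicit false

namespace Pool.Agent.Lib.MP_1a91b9_nuX.TH

open NumberField IsDedekindDomain WeierstrassCurve Module Pool.Agent.Lib.MP_1a91b9_nuT
open Pool.Agent.Lib.MP_1a91b9_nuX.DB Pool.Agent.Lib.MP_1a91b9_nuX.GL
open Pool.Agent.Lib.MP_1a91b9_nuG (up)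
open Pool.Agent.Lib.MP_1a91b9_nuX.PG
open Pool.Agent.Lib.MP_1a91b9_nuX.PH
open Pool.Agent.Lib.MP_1a91b9_nuX.TC
open Pool.Agent.Lib.MP_1a91b9_nuX.AN
open Pool.Agent.Lib.MP_1a91b9_nuT.S4 (Lf)
open Pool.Agent.Lib.MP_1a91b9_nuT.PL (Ab)

universe u

variable [CD] [HC]

theorem twD_of {F : Type u} [Field F] [NumberField F] [Algebra K F] {W : WeierstrassCurve F}
    {M : Ideal (𝓞 F)} {c : Ideal (𝓞 F) → ℂ} (hc : ChW W M c) : BR.TwD M (psP W) c :=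
  ⟨hc.rc, fun v hv => by rw [← hc.val v hv, bC, psP_at]⟩

private theorem eul_hl {F : Type u} [Field F] [NumberField F] [Algebra K F]
    {W : WeierstrassCurve F} {m : Ideal (𝓞 F)} (h : FDat F W m (psP W)) {g : 𝓞 K} {ℓ : ℕ}
    (hg : IsCoprime g (ℓ : 𝓞 K)) (hna : NaW ℓ g W) (v : HeightOneSpectrum (𝓞 F))
    (hv : Ideal.span {up g F} ≤ v.asIdeal) (hm : ¬ m ≤ v.asIdeal) :
    (ℓ : 𝓞 F) ∉ v.asIdeal ∧ IsCoprime (psP W v.asIdeal - 1) (ℓ : 𝓞 K) := by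
  have h1 : up g F ∈ v.asIdeal := (Ideal.span_singleton_le_iff_mem _).1 hv
  refine ⟨fun h2 => ?_, ?_⟩
  · obtain ⟨a, b, hab⟩ := hg.map (algebraMap (𝓞 K) (𝓞 F))
    rw [map_natCast] at hab
    apply v.isPrime.ne_top
    rw [Ideal.eq_top_iff_one, ← hab]
    exact v.asIdeal.add_mem (v.asIdeal.mul_mem_left a h1) (v.asIdeal.mul_mem_left b h2)
  · rw [psP_at]
    refine hna v h1 ?_
    by_contra hG
    exact hm ((h.bad v).2 hG)

/-- **The L-series over a field which contains `K`.** -/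
theorem eul_K (hE : EllK) {N : Type u} [Field N] [NumberField N] [Algebra K N]
    {W : WeierstrassCurve N} {μ : 𝓞 K} (hμ : μ ≠ 0) (hW : AbW W μ) {g : 𝓞 K}
    {c : Ideal (𝓞 N) → ℂ} (hc : ChW W (Ideal.span {up g N}) c) {ℓ : ℕ} [Fact ℓ.Prime]
    (hg : IsCoprime g (ℓ : 𝓞 K)) (hna : NaW ℓ g W) :
    ∃ (R : ℂ → ℂ) (ρ : ℚ), Differentiable ℂ R ∧ (∀ s : ℂ, 2 < s.re → W.LSeries s * R s =
      (starRingEnd ℂ) (Lf (fun I => psbC N I * c I) ((starRingEnd ℂ) s)) *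
        Lf (fun I => psbC N I * c I) s) ∧ R 1 = (ρ : ℂ) ∧
      ∀ A : ValuationSubring ℂ, Ab ℓ A → A.valuation (ρ : ℂ) = 1 := by
  obtain ⟨m, h⟩ := fdatP hE hμ hW
  exact BR.br_K h hc.ne (twD_of hc) (eul_hl h hg hna)

/-- **The L-series over a field `N` which does not contain `K`, `F = N K`.** -/
theorem eul_N (hE : EllK) {N F : Type u} [Field N] [NumberField N] [Field F] [NumberField F]
    [Algebra N F] [Algebra K F] (h2 : Module.finrank N F = 2)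
    (hn : ∀ x : N, algebraMap N F x ≠ algebraMap K F (ta : K)) {W : WeierstrassCurve N}
    {μ : 𝓞 K} (hμ : μ ≠ 0) (hW : AbW (W.map (algebraMap N F)) μ) {g : ℕ}
    {c : Ideal (𝓞 F) → ℂ} (hc : ChW (W.map (algebraMap N F)) (Ideal.span {up (g : 𝓞 K) F}) c)
    {ℓ : ℕ} [Fact ℓ.Prime] (hg : g.Coprime ℓ) (hna : NaW ℓ (g : 𝓞 K) (W.map (algebraMap N F))) :
    ∃ (R : ℂ → ℂ) (ρ : ℚ), Differentiable ℂ R ∧ (∀ s : ℂ, 2 < s.re → W.LSeries s * R s =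
      Lf (fun I => psbC F I * c I) s) ∧ R 1 = (ρ : ℂ) ∧
      ∀ A : ValuationSubring ℂ, Ab ℓ A → A.valuation (ρ : ℂ) = 1 := by
  classical
  obtain ⟨m, h⟩ := fdatP hE hμ hW
  have hFm : Fm (W.map (algebraMap N F)) := by
    obtain ⟨ι, D, hD, -⟩ := hW
    exact ⟨ι, D, hD⟩
  have hcop : IsCoprime ((g : ℕ) : 𝓞 K) (ℓ : 𝓞 K) := Nat.Coprime.cast hg
  refine BR.br_N h (eulD_P hE h2 hn hFm) hc.ne (twD_of hc) (fun w w' hww hw => ?_)
    (eul_hl h hcop hna)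
  rw [Ideal.span_singleton_le_iff_mem] at hw ⊢
  have e : up (g : 𝓞 K) F = algebraMap (𝓞 N) (𝓞 F) ((g : ℕ) : 𝓞 N) := by
    rw [up, map_natCast, map_natCast]
  rw [e] at hw ⊢
  have h3 : ((g : ℕ) : 𝓞 N) ∈ (w.under (𝓞 N)).asIdeal := hw
  rw [hww] at h3
  exact h3

end Pool.Agent.Lib.MP_1a91b9_nuX.TH
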