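import Pool.Agent.Lib.MP_1a91b9_nuX.QW.Defs
import Pool.Agent.Lib.MP_1a91b9_nuX.TH.Chw

/-!
# The Hecke character of a form of the curve in terms of the scaling factor
-/

set_option autoImplicit false

namespace Pool.Agent.Lib.MP_1a91b9_nuX.TH

open NumberField IsDedekindDomain WeierstrassCurve Module Pool.Agent.Lib.MP_1a91b9_nuT
open Pool.Agent.Lib.MP_1a91b9_nt (nrm nrm_eq)
open Pool.Agent.Lib.MP_1a91b9_nuX.DB Pool.Agent.Lib.MP_1a91b9_nuX.GL
open Pool.Agent.Lib.MP_1a91b9_nuG (up)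
open Pool.Agent.Lib.MP_1a91b9_nuX.PG (Gd)
open Pool.Agent.Lib.MP_1a91b9_nuX.PH
open Pool.Agent.Lib.MP_1a91b9_nuX.TG Pool.Agent.Lib.MP_1a91b9_nuX.TC
open Pool.Agent.Lib.MP_1a91b9_nuX.AN
open Pool.Agent.Lib.MP_1a91b9_nuT.CF (IsFr)
open Pool.Agent.Lib.MP_1a91b9_nuT.Per (cv)
open Pool.Agent.Lib.MP_1a91b9_nuX.QW (ScD)

universe u

variable [CD]

section
variable {N F : Type u} [Field N] [NumberField N] [Algebra K N] [Field F] [NumberField F]
  [Algebra K F] [Algebra N F] [IsScalarTower K N F]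

/-- the isomorphism of the form with the curve -/
theorem sc_iso {a b : N} {u : F} (hu : u ≠ 0) (ha : algebraMap N F a = (CD.A : F) * u ^ 4)
    (hb : algebraMap N F b = (CD.B : F) * u ^ 6) :
    (⟨(Units.mk0 u hu)⁻¹, 0, 0, 0⟩ : VariableChange F) • E F = (cv a b).map (algebraMap N F) := by
  have e : ((((Units.mk0 u hu)⁻¹)⁻¹ : Fˣ) : F) = u := by rw [inv_inv, Units.val_mk0]
  refine WeierstrassCurve.ext ?_ ?_ ?_ ?_ ?_
  · rw [variableChange_a₁, e]
    change u * (0 + 2 * 0) = algebraMap N F 0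
    rw [map_zero]
    ring
  · rw [variableChange_a₂, e]
    change u ^ 2 * (0 - 0 * 0 + 3 * 0 - 0 ^ 2) = algebraMap N F 0
    rw [map_zero]
    ring
  · rw [variableChange_a₃, e]
    change u ^ 3 * (0 + 0 * 0 + 2 * 0) = algebraMap N F 0
    rw [map_zero]
    ring
  · rw [variableChange_a₄, e]
    change u ^ 4 * ((CD.A : F) - 0 * 0 + 2 * 0 * 0 - (0 + 0 * 0) * 0 + 3 * 0 ^ 2 - 2 * 0 * 0) =
      algebraMap N F a
    rw [ha]
    ring
  · rw [variableChange_a₆, e]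
    change u ^ 6 * ((CD.B : F) + 0 * (CD.A : F) + 0 ^ 2 * 0 + 0 ^ 3 - 0 * 0 - 0 ^ 2 - 0 * 0 * 0) =
      algebraMap N F b
    rw [hb]
    ring

/-- the powers of the units of the character -/
theorem sc_pow {a b : N} {u : F} {θ : Gal(F/N) →* (𝓞 K)ˣ} (hs : ScD a b u θ) (s : Gal(F/N)) :
    (CD.A : F) * algebraMap K F (((θ s : (𝓞 K)ˣ) : 𝓞 K) : K) ^ 4 = (CD.A : F) ∧
      (CD.B : F) * algebraMap K F (((θ s : (𝓞 K)ˣ) : 𝓞 K) : K) ^ 6 = (CD.B : F) := by
  have hu := hs.ne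
  constructor
  · have h1 := congrArg s hs.ha
    rw [s.commutes, map_mul, map_pow, map_intCast, hs.th s, hs.ha, mul_pow] at h1
    have h2 : (CD.A : F) * algebraMap K F (((θ s : (𝓞 K)ˣ) : 𝓞 K) : K) ^ 4 * u ^ 4 =
        (CD.A : F) * u ^ 4 := by rw [h1]; ring
    exact mul_right_cancel₀ (pow_ne_zero 4 hu) h2
  · have h1 := congrArg s hs.hb
    rw [s.commutes, map_mul, map_pow, map_intCast, hs.th s, hs.hb, mul_pow] at h1
    have h2 : (CD.B : F) * algebraMap K F (((θ s : (𝓞 K)ˣ) : 𝓞 K) : K) ^ 6 * u ^ 6 =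
        (CD.B : F) * u ^ 6 := by rw [h1]; ring
    exact mul_right_cancel₀ (pow_ne_zero 6 hu) h2

end

section
variable [DecidableEq Kb]
variable {N F : Type u} [Field N] [NumberField N] [Algebra K N] [Field F] [NumberField F]
  [Algebra K F] [Algebra N F] [IsScalarTower K N F] [Algebra N Kb] [Algebra F Kb]
  [IsScalarTower K N Kb] [IsScalarTower K F Kb] [IsScalarTower N F Kb] [IsGalois N F]


/-- the transport of an automorphism to the curve -/
theorem sc_trs {a b : N} {u : F} {θ : Gal(F/N) →* (𝓞 K)ˣ} (hs : ScD a b u θ)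
    (hp : ∀ s : Gal(F/N), (CD.A : F) * algebraMap K F (((θ s : (𝓞 K)ˣ) : 𝓞 K) : K) ^ 4 =
      (CD.A : F) ∧
      (CD.B : F) * algebraMap K F (((θ s : (𝓞 K)ˣ) : 𝓞 K) : K) ^ 6 = (CD.B : F))
    (σ : Kb ≃ₐ[N] Kb)
    (φ : Pt Kb →+ Pt Kb)
    (hφ : Trs ((⟨(Units.mk0 u hs.ne)⁻¹, 0, 0, 0⟩ : VariableChange F).map (algebraMap F Kb)) σ φ)
    (T : Pt Kb) :
    φ T = sm Kb ((θ⁻¹ (AlgEquiv.restrictNormalHom F σ) : (𝓞 K)ˣ) : 𝓞 K) (ga σ T) := by
  obtain ⟨s, hsσ⟩ : ∃ s : Gal(F/N), s = AlgEquiv.restrictNormalHom F σ := ⟨_, rfl⟩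
  rw [← hsσ]
  have hσu : σ (algebraMap F Kb u) =
      algebraMap K Kb (((θ s : (𝓞 K)ˣ) : 𝓞 K) : K) * algebraMap F Kb u := by
    have h1 : algebraMap F Kb (s u) = σ (algebraMap F Kb u) := by
      rw [hsσ]
      exact AlgEquiv.restrictNormal_commutes σ F u
    rw [← h1, hs.th s, map_mul, ← IsScalarTower.algebraMap_apply K F Kb]
  have hu0 : algebraMap F Kb u ≠ 0 := (map_ne_zero _).2 hs.ne
  obtain ⟨ρ, hρ⟩ : ∃ ρ : Kb, ρ = algebraMap K Kb (((θ s : (𝓞 K)ˣ) : 𝓞 K) : K) := ⟨_, rfl⟩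
  have hθ0 : (((θ s : (𝓞 K)ˣ) : 𝓞 K) : K) ≠ 0 := by
    intro h0
    have h1 : ((θ s : (𝓞 K)ˣ) : 𝓞 K) = 0 := RingOfIntegers.ext h0
    exact (θ s).ne_zero h1
  have hρ0 : ρ ≠ 0 := by
    rw [hρ]
    exact (map_ne_zero _).2 hθ0
  obtain ⟨hA, hB⟩ := hp s
  have hA' : ρ ^ 4 * cA Kb = cA Kb := by
    have h1 := congrArg (algebraMap F Kb) hA
    rw [map_mul, map_pow, map_intCast, ← IsScalarTower.algebraMap_apply K F Kb, ← hρ] at h1
    rw [mul_comm]
    exact h1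
  have hB' : ρ ^ 6 * cB Kb = cB Kb := by
    have h1 := congrArg (algebraMap F Kb) hB
    rw [map_mul, map_pow, map_intCast, ← IsScalarTower.algebraMap_apply K F Kb, ← hρ] at h1
    rw [mul_comm]
    exact h1
  obtain ⟨ε, hε, hεT⟩ := unit_Kb hρ0 hA' hB'
  have hεθ : ε = θ⁻¹ s := by
    apply Units.ext
    apply RingOfIntegers.ext
    apply (algebraMap K Kb).injective
    rw [hε, MonoidHom.inv_apply, hρ, ← map_inv₀]
    congr 1
    have h1 : (((θ s : (𝓞 K)ˣ) : 𝓞 K) : K) * ((((θ s)⁻¹ : (𝓞 K)ˣ) : 𝓞 K) : K) = 1 := by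
      have h2 : ((θ s : (𝓞 K)ˣ) : 𝓞 K) * (((θ s)⁻¹ : (𝓞 K)ˣ) : 𝓞 K) = 1 := Units.mul_inv _
      have h3 := congrArg (algebraMap (𝓞 K) K) h2
      rw [map_mul, map_one] at h3
      exact h3
    exact (eq_inv_of_mul_eq_one_right h1).symm
  by_cases hT : T = 0
  · rw [hT, map_zero, map_zero, map_zero]
  obtain ⟨g1, g2, g3⟩ := hφ T hT
  have hne : ga σ T ≠ 0 := fun h => hT ((gk_ne σ).1 h)
  obtain ⟨D, hD⟩ : ∃ D : VariableChange Kb, D =
      (⟨(Units.mk0 u hs.ne)⁻¹, 0, 0, 0⟩ : VariableChange F).map (algebraMap F Kb) := ⟨_, rfl⟩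
  have hDu : (D.u : Kb) = (algebraMap F Kb u)⁻¹ := by
    rw [hD, ← map_inv₀]
    rfl
  have hDr : D.r = 0 := by
    rw [hD]
    exact map_zero _
  have hDs : D.s = 0 := by
    rw [hD]
    exact map_zero _
  have hDt : D.t = 0 := by
    rw [hD]
    exact map_zero _
  rw [← hD] at g2 g3
  rw [← hρ] at hσu
  have hx : ∀ S : Pt Kb, cx D S = xc S * algebraMap F Kb u ^ 2 := by
    intro S
    rw [cx, hDr, hDu, sub_zero, inv_pow, div_inv_eq_mul]
  have hy : ∀ S : Pt Kb, cy D S = yc S * algebraMap F Kb u ^ 3 := by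
    intro S
    rw [cy, hDr, hDs, hDt, hDu, zero_mul, sub_zero, sub_zero, inv_pow, div_inv_eq_mul]
  rw [hx, hx, map_mul, map_pow, hσu] at g2
  rw [hy, hy, map_mul, map_pow, hσu] at g3
  rw [← hεθ]
  refine hεT _ _ hne g1 ?_ ?_
  · rw [xc_gk]
    refine mul_right_cancel₀ (pow_ne_zero 2 hu0) ?_
    rw [g2]
    ring
  · rw [yc_gk]
    refine mul_right_cancel₀ (pow_ne_zero 3 hu0) ?_
    rw [g3]
    ring

end

section
variable [HC] {N F : Type u} [Field N] [NumberField N] [Algebra K N] [Field F] [NumberField F]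
  [Algebra K F] [Algebra N F] [IsScalarTower K N F]

omit [HC] in
/-- the curve is a form of the curve of `CD` -/
theorem sc_fm {a b : N} {u : F} (hu : u ≠ 0) (ha : algebraMap N F a = (CD.A : F) * u ^ 4)
    (hb : algebraMap N F b = (CD.B : F) * u ^ 6) {W : WeierstrassCurve N} {D : VariableChange N}
    (hD : D • W = cv a b) : Fm W := by
  refine fm_iso D hD (fm_up (F := F) (fm_iso (F := F) ((⟨(Units.mk0 u hu)⁻¹, 0, 0, 0⟩ :
    VariableChange F)⁻¹) ?_ (fm_E F)))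
  rw [← sc_iso hu ha hb, inv_smul_smul]

variable [IsGalois N F]

/-- **The Hecke character of a form of the curve in terms of the scaling factor.** -/
theorem sc_val (hE : EllK) {a b : N} {u : F} {θ : Gal(F/N) →* (𝓞 K)ˣ} (hs : ScD a b u θ)
    {W : WeierstrassCurve N} {D : VariableChange N} (hD : D • W = cv a b)
    (w : HeightOneSpectrum (𝓞 F)) (hf : HC.f ∉ ((w.under (𝓞 N)).under (𝓞 K)).asIdeal)
    (hr : ¬ CF.Ram F (w.under (𝓞 N))) (hg : Gd W (w.under (𝓞 N))) (σ : Gal(F/N))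
    (hσ : IsFr (w.under (𝓞 N)) w σ) :
    psi N (w.under (𝓞 N)).asIdeal = ((θ σ : (𝓞 K)ˣ) : 𝓞 K) * Hv W (w.under (𝓞 N)) := by
  classical
  have hF : Algebra.IsAlgebraic K F := by
    have h1 : Algebra.IsAlgebraic ℚ F := Algebra.IsAlgebraic.of_finite ℚ F
    exact Algebra.IsAlgebraic.tower_top (K := ℚ) K
  obtain ⟨ι⟩ : Nonempty (F →ₐ[K] Kb) := ⟨IsAlgClosed.lift⟩
  let aF : Algebra F Kb := (ι : F →+* Kb).toAlgebra
  let aN : Algebra N Kb := ((ι : F →+* Kb).comp (algebraMap N F)).toAlgebra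
  have t1 : IsScalarTower K F Kb := IsScalarTower.of_algebraMap_eq fun x => (ι.commutes x).symm
  have t2 : IsScalarTower N F Kb := IsScalarTower.of_algebraMap_eq fun x => rfl
  have t3 : IsScalarTower K N Kb := IsScalarTower.of_algebraMap_eq fun x => by
    rw [IsScalarTower.algebraMap_apply K F Kb, IsScalarTower.algebraMap_apply K N F,
      ← IsScalarTower.algebraMap_apply N F Kb]
  have hD' : ((⟨(Units.mk0 u hs.ne)⁻¹, 0, 0, 0⟩ : VariableChange F)).map (algebraMap F Kb) •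
      EF Kb = (cv a b).map (algebraMap N Kb) := by
    have e1 : EF Kb = (E F).map (algebraMap F Kb) := by
      refine WeierstrassCurve.ext ?_ ?_ ?_ ?_ ?_
      · exact (map_zero (algebraMap K Kb)).trans (map_zero _).symm
      · exact (map_zero (algebraMap K Kb)).trans (map_zero _).symm
      · exact (map_zero (algebraMap K Kb)).trans (map_zero _).symm
      · exact (map_intCast (algebraMap K Kb) _).trans (map_intCast _ _).symm
      · exact (map_intCast (algebraMap K Kb) _).trans (map_intCast _ _).symm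
    rw [e1, WeierstrassCurve.map_variableChange, sc_iso hs.ne hs.ha hs.hb,
      WeierstrassCurve.map_map]
    rfl
  have hW : Fm (cv a b) := ⟨IsScalarTower.toAlgHom K N Kb, _, hD'⟩
  have hg' : Gd (cv a b) (w.under (𝓞 N)) := (LG.gd_iso hD _).1 hg
  have h1 := hv_fri hE hW hg' (IsScalarTower.toAlgHom K N Kb) _ hD'
  have h2 := twist_psi hD' (θ := θ⁻¹) (fun σ φ hφ T => sc_trs hs (sc_pow hs) σ φ hφ T) hf hr hσ
    ((fri_iff (F := N)).1 h1)
  rw [hv_iso D hD, h2, MonoidHom.inv_apply, ← mul_assoc, Units.mul_inv, one_mul]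

end

/-- a unit of `𝓞 K` has absolute value one -/
theorem conj_unit (ε : (𝓞 K)ˣ) :
    (starRingEnd ℂ) (embK ((ε : 𝓞 K) : K)) * embK ((ε : 𝓞 K) : K) = 1 := by
  have h1 := mul_cj (ε : 𝓞 K)
  rw [Ideal.span_singleton_eq_top.2 ε.isUnit, Ideal.absNorm_top, Nat.cast_one] at h1
  have h2 : ((ε : 𝓞 K) : K) * ((cj (ε : 𝓞 K) : 𝓞 K) : K) = 1 := by
    have h3 := congrArg (algebraMap (𝓞 K) K) h1
    rw [map_mul, map_one] at h3
    exact h3
  rw [← emb_cj, ← map_mul, mul_comm, h2, map_one]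

section
variable [HC] {μ : 𝓞 K} {N L : Type u} [Field N] [NumberField N] [Algebra K N]
  [Field L] [NumberField L] [Algebra K L] [Algebra N L] [IsScalarTower K N L] [DecidableEq L]
  [IsGalois N L] {T : Pt L}

/-- **The ray class character of a form of the curve.** -/
theorem chW_sc (hE : EllK) (hT : AbT μ N T) {a b : N} {u : L} {θ : Gal(L/N) →* (𝓞 K)ˣ}
    (hs : ScD a b u θ) {W : WeierstrassCurve N} {D : VariableChange N} (hD : D • W = cv a b)
    {g : 𝓞 K} (hg0 : g ≠ 0) (hg : gB μ ∣ g) :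
    ChW W (Ideal.span {up g N}) (cT N T (Ideal.span {up g N}) (QW.thC θ)) := by
  obtain ⟨m, hm'⟩ : ∃ m : Ideal (𝓞 N), m = Ideal.span {up g N} := ⟨_, rfl⟩
  rw [← hm']
  have hm0 : m ≠ 0 := by
    rw [hm', Ne, Ideal.zero_eq_bot, Ideal.span_singleton_eq_bot]
    intro h0
    exact hg0 ((FaithfulSMul.algebraMap_injective (𝓞 K) (𝓞 N)) (by rw [map_zero]; exact h0))
  have hm : m ≤ Ideal.span {up (gB μ) N} := by
    rw [hm', Ideal.span_singleton_le_span_singleton]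
    exact map_dvd (algebraMap (𝓞 K) (𝓞 N)) hg
  have hmem : ∀ {v : HeightOneSpectrum (𝓞 N)}, ¬ m ≤ v.asIdeal →
      HC.f ∉ (v.under (𝓞 K)).asIdeal := by
    intro v hv hf
    apply hv
    refine hm.trans ((Ideal.span_singleton_le_iff_mem _).2 ?_)
    exact v.asIdeal.mem_of_dvd (map_dvd (algebraMap (𝓞 K) (𝓞 N)) (f_dvd_gB μ)) hf
  have hunr : ∀ v : HeightOneSpectrum (𝓞 N), ¬ m ≤ v.asIdeal → ¬ MP_1a91b9_nuG.Ram L v := by
    intro v hv h
    refine hv (hm.trans ?_)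
    rw [Ideal.span_singleton_le_iff_mem]
    by_contra h1
    exact hT.not_ram v h1 h
  have hgd : ∀ v : HeightOneSpectrum (𝓞 N), ¬ m ≤ v.asIdeal → Gd W v := by
    intro v hv
    obtain ⟨w, rfl⟩ := CF.exists_over (k := N) (N := L) v
    refine (LG.gd_iso hD _).2 (gd_down (F := L) (fun h => hunr _ hv
      ((MP_1a91b9_nuG.ram_eq _).2 h)) ?_)
    have h4 : HC.f ∉ (w.under (𝓞 K)).asIdeal := by
      have h5 := hmem hv
      have e : ((w.under (𝓞 N)).under (𝓞 K)) = w.under (𝓞 K) :=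
        HeightOneSpectrum.ext (Ideal.under_under _)
      rwa [e] at h5
    rw [← sc_iso hs.ne hs.ha hs.hb]
    exact (LG.gd_iso rfl w).1 (gd_E h4)
  refine ⟨hm0, rc_cT _ hT hm0 (ne_one_of_le hm) hm, hgd, fun v hv => ?_⟩
  obtain ⟨w, rfl⟩ := CF.exists_over (k := N) (N := L) v
  obtain ⟨σ, hσ⟩ := CF.exists_fr (k := N) w
  have hr : ¬ CF.Ram L (w.under (𝓞 N)) := fun h => hunr _ hv ((MP_1a91b9_nuG.ram_eq _).2 h)
  have hcop : IsCoprime (w.under (𝓞 N)).asIdeal m := by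
    by_contra h
    exact hv ((S4.le_iff_not_coprime m _).2 h)
  have e1 := sc_val hE hs hD w (hmem hv) hr (hgd _ hv) σ hσ
  have e2 : cT N T m (QW.thC θ) (w.under (𝓞 N)).asIdeal =
      embK (((θ σ : (𝓞 K)ˣ) : 𝓞 K) : K) := by
    rw [cT_of hcop, art_fr hT hm _ hv w σ rfl hσ, QW.thC_apply]
  rw [e2]
  have e3 : psbC N (w.under (𝓞 N)).asIdeal =
      (starRingEnd ℂ) (embK (((θ σ : (𝓞 K)ˣ) : 𝓞 K) : K)) *
      (starRingEnd ℂ) (embK (Hv W (w.under (𝓞 N)) : K)) := by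
    have e4 : psbC N (w.under (𝓞 N)).asIdeal =
        (starRingEnd ℂ) (embK (psi N (w.under (𝓞 N)).asIdeal : K)) := rfl
    have e5 : ((((θ σ : (𝓞 K)ˣ) : 𝓞 K) * Hv W (w.under (𝓞 N)) : 𝓞 K) : K) =
        (((θ σ : (𝓞 K)ˣ) : 𝓞 K) : K) * (Hv W (w.under (𝓞 N)) : K) :=
      map_mul (algebraMap (𝓞 K) K) _ _
    rw [e4, e1, e5, map_mul, map_mul]
  rw [e3, mul_right_comm, conj_unit, one_mul]

end

end Pool.Agent.Lib.MP_1a91b9_nuX.TH
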