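import Pool.Agent.Lib.MP_1a91b9_nuX.TG.Tower

/-!
# The tower without a condition on the ramification of the base field

Copies of the theorems of TG/Analytic and TG/Tower without the condition `LF.Nice`.
-/

set_option autoImplicit false

namespace Pool.Agent.Lib.MP_1a91b9_nuX.TH

variable [Pool.Agent.Lib.MP_1a91b9_nuT.CD]

open NumberField IsDedekindDomain WeierstrassCurve Module Pool.Agent.Lib.MP_1a91b9_nuT
open Pool.Agent.Lib.MP_1a91b9_nuX.DB Pool.Agent.Lib.MP_1a91b9_nuX.DX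
  Pool.Agent.Lib.MP_1a91b9_nuX.DS
open Pool.Agent.Lib.MP_1a91b9_nt
open Pool.Agent.Lib.MP_1a91b9_nuG
open Pool.Agent.Lib.MP_1a91b9_nuX.TG
open Pool.Agent.Lib.MP_1a91b9_nuT.S5 (below mem_below exists_above below_below)
open scoped Classical
open Pool.Agent.Lib.MP_1a91b9_nuT3.S9 (ShaP)

universe u

/-- The property of the base field: the `ℓ`-part of the Birch and Swinnerton-Dyer conjecture for
the curve over `F` in the form used by the tower. -/
structure BaseH [HC] (ℓ : ℕ) (F : Type u) [Field F] [NumberField F] [Algebra K F] :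
    Prop where
  e2 : ¬ ℓ ∣ 2 ^ Module.finrank K F - 1
  unr : UnrL ℓ F
  unit : AN.UnitProp ℓ Om F
  vt : ∀ (ϖ : 𝓞 K) (q : ℕ), PD ϖ ℓ q → VT ϖ ℓ F
  dt : ∀ (ϖ : 𝓞 K) (q : ℕ), PD ϖ ℓ q → DT ϖ F

/-- What is needed about the field `F` over `K` for the `ℓ`-part of the formula. -/
structure GoodH [HC] (ℓ : ℕ) [Fact ℓ.Prime] (F : Type u) [Field F] [NumberField F]
    [Algebra K F] : Prop where
  good : ¬ (ℓ : ℤ) ∣ CD.bad
  unr : UnrL ℓ F
  unit : AN.UnitProp ℓ Om F
  fin : Finite (E F).toAffine.Point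
  cop : (Nat.card (E F).toAffine.Point).Coprime ℓ
  sha : Subsingleton (ShaP ℓ (E F))

section
variable [HC]
  {P : ∀ (F : Type u) [Field F] [NumberField F] [Algebra K F], Prop}
  {ℓ : ℕ} (hℓ : ℓ.Prime) (hD : ¬ (ℓ : ℤ) ∣ CD.bad)
  (hP : ∀ (F : Type u) [Field F] [NumberField F] [Algebra K F], P F → BaseH ℓ F)
  {F : Type u} [Field F] [NumberField F] [Algebra K F]

include hℓ hD hP

omit hD in
theorem e2_tower (h : TowerG P ℓ F) : ¬ ℓ ∣ 2 ^ finrank K F - 1 := by
  induction h with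
  | base F hb => exact (hP F hb).e2
  | step F F' hG hr hu ha h ih =>
    rw [← Module.finrank_mul_finrank K F F', hr]
    exact e2_up hℓ ih

omit hD in
theorem unr_tower (h : TowerG P ℓ F) :
    ∀ q : HeightOneSpectrum (𝓞 K), (ℓ : 𝓞 K) ∈ q.asIdeal → ¬ MP_1a91b9_nuT3.Ram F q := by
  induction h with
  | base F hb => exact fun q hq => not_ram_of_unr (hP F hb).unr hℓ.ne_zero q hq
  | step F F' hG hr hu ha h ih =>
    intro q hq
    refine MP_1a91b9_nuT3.S8.not_ram_tower (F := F) q (ih q hq) fun v hv => hu v ?_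
    subst hv
    rw [mem_below, map_natCast] at hq
    exact hq

omit hD in
theorem uq_tower (h : TowerG P ℓ F) : Ell.UQ ℓ F :=
  MP_1a91b9_nuT3.S8.uq_of_unram ℓ hℓ F fun v hv => unr_tower hℓ hP h v hv

theorem valueProp_tower (h : TowerG P ℓ F) : ValueProp HC.f ℓ Om F := by
  have h5 := five_le hℓ hD
  exact valueProp_e2 hℓ h5 F (e2_tower hℓ hP h) (uq_tower hℓ hP h)

theorem unitProp_tower (h : TowerG P ℓ F) : AN.UnitProp ℓ Om F := by
  have hp : Fact ℓ.Prime := ⟨hℓ⟩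
  have h5 := five_le hℓ hD
  induction h with
  | base F h => exact (hP F h).unit
  | step F F' hG hr hu ha h ih =>
    obtain ⟨x, -, hx1, hx2⟩ := CF.reciprocity F F' ℓ (by omega) hr fun v hv h3v =>
      hu v h3v ((ram_eq v).mpr hv)
    have hx := cfData_of hℓ hr x hx1 hx2
    exact AN.step_main hr x hx (f_coprime hℓ hD) (fun v hv h1 => hu v h1 hv)
      (fun v hv _ => ha v hv)
      (valueProp_tower hℓ hD hP h) (valueProp_tower hℓ hD hP (TowerG.step F F' hG hr hu ha h)) ih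

/-- the series of `F` continues and does not vanish at `1` -/
theorem lgood_tower (h : TowerG P ℓ F) : AN.LGood F := by
  obtain ⟨L, hL, hL1, hLW⟩ := unitProp_tower hℓ hD hP h
  obtain ⟨W, hW⟩ := Ell.d3_exists hℓ
  exact ⟨L, hL, hL1, S4.UnitProp.ne_zero (hLW W hW)⟩

end

section
variable [HC]
  {P : ∀ (F : Type u) [Field F] [NumberField F] [Algebra K F], Prop}
  {ℓ : ℕ} (hD : ¬ (ℓ : ℤ) ∣ CD.bad)
  (hP : ∀ (F : Type u) [Field F] [NumberField F] [Algebra K F], P F → BaseH ℓ F)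
  (F : Type u) [Field F] [NumberField F] [Algebra K F]
include hD hP

omit hD in
/-- the Selmer group in Kummer form is trivial over the fields of the tower -/
theorem alg_tower {ϖ : 𝓞 K} {q : ℕ} (h : PD ϖ ℓ q) (hF : TowerG P ℓ F) :
    VT ϖ ℓ F ∧ DT ϖ F ∧ UnrL ℓ F :=
  DS.tower_alg h (fun F _ _ _ hb => (hP F hb).vt ϖ q h) (fun F _ _ _ hb => (hP F hb).dt ϖ q h)
    (fun F _ _ _ hb => (hP F hb).unr) F hF

/-- the group of points is finite over the fields of the tower -/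
theorem finite_tower (hℓ : ℓ.Prime) (h : TowerG P ℓ F) : Finite (E F).toAffine.Point := by
  obtain ⟨ϖ, q, hp⟩ := DX.exists_pd hℓ hD
  obtain ⟨h1, h2, h3⟩ := alg_tower hP F hp h
  have hfin : Finite (Pt F) := DY.top' hp h1 h3 h2
  exact (PL.pt_card F hfin).1

/-- the fields of the tower satisfy the hypotheses of the `ℓ`-part of the formula -/
theorem goodH_tower [hℓ : Fact ℓ.Prime] (h : TowerG P ℓ F) : GoodH ℓ F := by
  obtain ⟨ϖ, q, hp⟩ := DX.exists_pd hℓ.out hD
  have hp' := pd_cj hp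
  obtain ⟨h1, h2, h3⟩ := alg_tower hP F hp h
  obtain ⟨h1', h2', -⟩ := alg_tower hP F hp' h
  have hfin : Finite (Pt F) := DY.top' hp h1 h3 h2
  have hd1 := DY.exists_divisor' hp h1 h3 h2
  have hd2 := DY.exists_divisor' hp' h1' h3 h2'
  rw [cj_cj] at hd2
  have hcop := PL.coprime_card hp hfin hd1 hd2
  obtain ⟨hf, hc⟩ := PL.pt_card F hfin
  refine ⟨hD, h3, unitProp_tower hℓ.out hD hP h, hf, ?_, ?_⟩
  · rw [hc]
    exact hcop
  · exact DY.sha_primary' hp h3 h1 h1' h2 h2'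

end

end Pool.Agent.Lib.MP_1a91b9_nuX.TH
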