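import Pool.Agent.Lib.MP_1a91b9_nuX.TH.Chr
import Pool.Agent.Lib.MP_1a91b9_nuX.PH.Main
import Pool.Agent.Lib.MP_1a91b9_nuX.LG.Main

/-!
# The nonvanishing of the L-series of a form of the curve
-/

set_option autoImplicit false

namespace Pool.Agent.Lib.MP_1a91b9_nuX.TH

open NumberField IsDedekindDomain WeierstrassCurve Module Pool.Agent.Lib.MP_1a91b9_nuT
open Pool.Agent.Lib.MP_1a91b9_nuX.DB Pool.Agent.Lib.MP_1a91b9_nuX.GL
open Pool.Agent.Lib.MP_1a91b9_nuG (up)
open Pool.Agent.Lib.MP_1a91b9_nuX.PG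
open Pool.Agent.Lib.MP_1a91b9_nuX.PH
open Pool.Agent.Lib.MP_1a91b9_nuX.TG Pool.Agent.Lib.MP_1a91b9_nuX.TC
open Pool.Agent.Lib.MP_1a91b9_nuX.AN
open Pool.Agent.Lib.MP_1a91b9_nuX.LG
open Pool.Agent.Lib.MP_1a91b9_nuX.PA (bC_one bC_mul norm_bC_le bC_bad)
open Pool.Agent.Lib.MP_1a91b9_nuT.S4 (Lf entire_eq differentiable_euler)

universe u

variable [CD] [HC]

theorem psP_at {F : Type u} [Field F] [NumberField F] [Algebra K F] (W : WeierstrassCurve F)
    (w : HeightOneSpectrum (𝓞 F)) : psP W w.asIdeal = Hv W w := psI_prime _ w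

/-- the product of the Euler factors of the curve at the places above `M` -/
noncomputable def eulR {F : Type u} [Field F] [NumberField F] [Algebra K F]
    (W : WeierstrassCurve F) (B : Finset (HeightOneSpectrum (𝓞 F))) (s : ℂ) : ℂ :=
  ∏ v ∈ B, (1 - bC (psP W) v.asIdeal * (Ideal.absNorm v.asIdeal : ℂ) ^ (-s))

/-- the set of the prime divisors of an ideal -/
theorem exists_B {F : Type u} [Field F] [NumberField F] {M : Ideal (𝓞 F)} (hM : M ≠ 0) :
    ∃ B : Finset (HeightOneSpectrum (𝓞 F)), ∀ v, v ∈ B ↔ M ≤ v.asIdeal := by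
  have hBfin : {v : HeightOneSpectrum (𝓞 F) | M ≤ v.asIdeal}.Finite := by
    refine (Ideal.finite_factors hM).subset fun v hv => ?_
    exact Ideal.dvd_iff_le.mpr hv
  exact ⟨hBfin.toFinset, fun v => Set.Finite.mem_toFinset hBfin⟩

section
variable {F : Type u} [Field F] [NumberField F] [Algebra K F] {W : WeierstrassCurve F}
  {m M : Ideal (𝓞 F)} {c : Ideal (𝓞 F) → ℂ}

/-- the series of the curve with the Euler factors above `M` removed -/
theorem ser_T (h : FDat F W m (psP W)) (hc : ChW W M c) {B : Finset (HeightOneSpectrum (𝓞 F))}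
    (hB : ∀ v, v ∈ B ↔ M ≤ v.asIdeal) (s : ℂ) (hs : 2 < s.re) :
    Lf (fun I => psbC F I * c I) s = Lf (bC (psP W)) s * eulR W B s := by
  have h1 := S4.compare_Lf (fun I => psbC F I * c I) (bC (psP W))
    (by rw [psbC_one, hc.rc.one, mul_one])
    (fun I J => by
      rw [psbC_mul, hc.rc.mul]; ring)
    (fun I => norm_psbC_mul_le _ I (hc.rc.le I)) (bC_one h) (bC_mul h) (norm_bC_le h) B
    (fun v hv => by
      have h2 : ¬ M ≤ v.asIdeal := fun h3 => hv ((hB v).2 h3)
      change psbC F v.asIdeal * c v.asIdeal = bC (psP W) v.asIdeal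
      rw [← hc.val v h2, bC, psP_at]) s hs
  rw [eulR, ← h1]
  have e : ∏ v ∈ B, (1 - psbC F v.asIdeal * c v.asIdeal *
      (Ideal.absNorm v.asIdeal : ℂ) ^ (-s)) = 1 := by
    refine Finset.prod_eq_one fun v hv => ?_
    rw [hc.rc.place v ((hB v).1 hv), mul_zero, zero_mul, sub_zero]
  rw [e, mul_one]

theorem differentiable_eulR (B : Finset (HeightOneSpectrum (𝓞 F))) :
    Differentiable ℂ (eulR W B) := differentiable_euler B _

/-- **The L-series of the curve does not vanish at `1`.** -/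
theorem goodP_of (h : FDat F W m (psP W)) (hc : ChW W M c)
    (hcont : ∃ L : ℂ → ℂ, Differentiable ℂ L ∧ ∀ s : ℂ, 2 < s.re → L s = Lf (bC (psP W)) s)
    (hT : LGoodT F c) : GoodP (psP W) := by
  obtain ⟨L, hL, hL1⟩ := hcont
  obtain ⟨B, hB⟩ := exists_B hc.ne
  obtain ⟨G, hG, hG1, hG2⟩ := hT
  refine ⟨L, hL, hL1, fun h0 => hG2 ?_⟩
  have e : G = fun s => L s * eulR W B s := by
    refine entire_eq hG (hL.mul (differentiable_eulR B)) fun s hs => ?_
    change G s = L s * eulR W B s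
    rw [hG1 s hs, hL1 s hs, ser_T h hc hB s hs]
  rw [e]
  change L 1 * _ = 0
  rw [h0, zero_mul]

end

end Pool.Agent.Lib.MP_1a91b9_nuX.TH
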