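import Pool.Agent.Lib.MP_1a91b9_nuX.TH.Dat
import Pool.Agent.Lib.MP_1a91b9_nuX.TH.Ab
import Pool.Agent.Lib.MP_1a91b9_nuX.TH.Ser
import Pool.Agent.Lib.MP_1a91b9_nuX.TC.Cls
import Pool.Agent.Lib.MP_1a91b9_nuX.TG.Top
import Pool.Agent.Lib.MP_1a91b9_nuX.PA.Cont

/-!
# The forms of the curve over the subfields of `L`
-/

set_option autoImplicit false

namespace Pool.Agent.Lib.MP_1a91b9_nuX.TH

open NumberField IsDedekindDomain WeierstrassCurve Module IntermediateField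
  Pool.Agent.Lib.MP_1a91b9_nuT
open Pool.Agent.Lib.MP_1a91b9_nuX.DB Pool.Agent.Lib.MP_1a91b9_nuX.GL
open Pool.Agent.Lib.MP_1a91b9_nuX.DS (TowerG)
open Pool.Agent.Lib.MP_1a91b9_nuG (up)
open Pool.Agent.Lib.MP_1a91b9_nuX.PG
open Pool.Agent.Lib.MP_1a91b9_nuX.PH
open Pool.Agent.Lib.MP_1a91b9_nuX.TG Pool.Agent.Lib.MP_1a91b9_nuX.TC
open Pool.Agent.Lib.MP_1a91b9_nuX.AN
open Pool.Agent.Lib.MP_1a91b9_nuX.LG

variable [CD]

variable [HC]

section
variable {ℓ : ℕ} (hℓ : ℓ.Prime) (hD : ¬ (ℓ : ℤ) ∣ CD.bad) (F₀ L M : Type) [Field F₀]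
  [NumberField F₀]
  [Algebra K F₀] (hB : ∀ (F : Type) [Field F] [NumberField F] [Algebra K F],
    Cpy F₀ F → BaseH ℓ F) [Field L] [NumberField L] [Field M] [NumberField M] [Algebra K L]
  [Algebra K M] [Algebra F₀ L] [Algebra L M] [Algebra F₀ M] [IsScalarTower K F₀ L]
  [IsScalarTower K F₀ M] [IsScalarTower F₀ L M] [IsGalois F₀ M] (n : ℕ)
  (hM : finrank F₀ M = ℓ ^ n) (hL : RamG ℓ F₀ L)
include hℓ hD hB hM hL

/-- The curves over a subfield `N` of `L` which contains `K`. -/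
theorem form_of_K (hE : EllK) {μ : 𝓞 K} (L' : Type) [Field L'] [NumberField L'] [Algebra K L']
    [Algebra F₀ L'] [IsScalarTower K F₀ L'] [IsGalois K L'] [DecidableEq L'] {T : Pt L'}
    (hT : AbT μ K T) (N : Type) [Field N] [NumberField N] [Algebra K N] [Algebra N L]
    [IsScalarTower K N L] {W : WeierstrassCurve N} {C : VariableChange L}
    (hC : C • W.baseChange L = E L) :
    (∃ m : Ideal (𝓞 N), FDat N W m (psP W)) ∧ GoodP (psP W) ∧ Finite W.toAffine.Point ∧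
      Fm W := by
  have h6 := coprime_six hℓ (five_le hℓ hD)
  obtain ⟨F, _, _, _, _, _, _, t1, t2, t3, t4, t5, hgen⟩ := exists_NF F₀ L N
  have hT' := tower_sub hℓ F₀ L M n hM hL F
  have hg := lgood_tower hℓ hD (fun F _ _ _ h => hB F h) hT'
  have hf := finite_tower hD (fun F _ _ _ h => hB F h) F hℓ hT'
  obtain ⟨D₀, hD₀⟩ := iso_F h6 F₀ L M n hM N F hC
  have hab := abW_of N F F₀ L' hT hgen hD₀
  obtain ⟨m, hm⟩ := fdatP hE hT.ne hab
  obtain ⟨c, hc, h1, -⟩ := exists_chW hE N F F₀ L' hT hgen hD₀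
  refine ⟨⟨m, hm⟩, goodP_of hm hc (PA.fdat_cont hm) (h1 hg), ?_, ?_⟩
  · exact TG.finite_down W (E F) D₀ hD₀ hf
  · exact fm_up (fm_iso D₀ hD₀ (fm_E F))

/-- **The conclusion for the L-series and the rank.** -/
theorem conclR_sub (hE : EllK) {μ : 𝓞 K} (L' : Type) [Field L'] [NumberField L'] [Algebra K L']
    [Algebra F₀ L'] [IsScalarTower K F₀ L'] [IsGalois K L'] [DecidableEq L'] {T : Pt L'}
    (hT : AbT μ K T) (N : Type) [Field N] [NumberField N] [Algebra N L]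
    (W : WeierstrassCurve N) (C : VariableChange L) (hC : C • W.baseChange L = E L) :
    ConclR W := by
  rcases exists_sub L N with ⟨aKN, hst⟩ | ⟨F, _, _, _, _, _, t1, t2, h2, hn⟩
  · obtain ⟨⟨m, hm⟩, hg, hf, -⟩ := form_of_K hℓ hD F₀ L M hB n hM hL hE L' hT N hC
    exact ⟨lconcl_K hm hg, hf⟩
  · have e1 : (W.map (algebraMap N F)).baseChange L = W.baseChange L := by
      change (W.map (algebraMap N F)).map (algebraMap F L) = W.map (algebraMap N L)
      rw [WeierstrassCurve.map_map, ← IsScalarTower.algebraMap_eq]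
    obtain ⟨⟨m, hm⟩, hg, hf, hfm⟩ := form_of_K hℓ hD F₀ L M hB n hM hL hE L' hT F
      (W := W.map (algebraMap N F)) (C := C) (by rw [e1]; exact hC)
    refine ⟨lconcl_N hm (eulD_P hE h2 hn hfm) hg, ?_⟩
    exact TG.finite_down W (W.map (algebraMap N F)) 1 (one_smul _ _) hf

end

end Pool.Agent.Lib.MP_1a91b9_nuX.TH
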