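import Pool.Agent.Lib.MP_1a91b9_nuX.TH.Ser
import Pool.Agent.Lib.MP_1a91b9_nuX.TC.Coc
import Pool.Agent.Lib.MP_1a91b9_nuX.TG.LG
import Pool.Agent.Lib.MP_1a91b9_nuX.PA.Cont

/-!
# The nonvanishing over `F₀ = N₀ K` from the nonvanishing over `N₀`
-/

set_option autoImplicit false

namespace Pool.Agent.Lib.MP_1a91b9_nuX.TH

open NumberField IsDedekindDomain WeierstrassCurve Module IntermediateField
  Pool.Agent.Lib.MP_1a91b9_nuT
open Pool.Agent.Lib.MP_1a91b9_nuX.DB Pool.Agent.Lib.MP_1a91b9_nuX.GL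
open Pool.Agent.Lib.MP_1a91b9_nuG (up)
open Pool.Agent.Lib.MP_1a91b9_nuX.PG
open Pool.Agent.Lib.MP_1a91b9_nuX.PH
open Pool.Agent.Lib.MP_1a91b9_nuX.TG Pool.Agent.Lib.MP_1a91b9_nuX.TC
open Pool.Agent.Lib.MP_1a91b9_nuX.AN
open Pool.Agent.Lib.MP_1a91b9_nuX.LG
open Pool.Agent.Lib.MP_1a91b9_nuX.PA (bC_one bC_mul norm_bC_le bC_bad)
open Pool.Agent.Lib.MP_1a91b9_nuT.S4 (Lf entire_eq differentiable_conj_conj indC indC_of
  indC_of_not)

universe u

variable [CD]

/-- the curve is defined over `K` -/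
theorem abW_E (F : Type u) [Field F] [NumberField F] [Algebra K F] : AbW (E F) 1 := by
  classical
  have hF : Algebra.IsAlgebraic K F := by
    have h1 : Algebra.IsAlgebraic ℚ F := Algebra.IsAlgebraic.of_finite ℚ F
    exact Algebra.IsAlgebraic.tower_top (K := ℚ) K
  refine ⟨IsAlgClosed.lift, 1, ?_, fun σ _ _ => trs_fix (N := K) (D := 1) ?_ (map_zero σ)
    (map_zero σ) (map_zero σ)⟩
  · rw [one_smul]
    refine WeierstrassCurve.ext ?_ ?_ ?_ ?_ ?_
    · exact (map_zero (algebraMap K Kb)).trans (map_zero _).symm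
    · exact (map_zero (algebraMap K Kb)).trans (map_zero _).symm
    · exact (map_zero (algebraMap K Kb)).trans (map_zero _).symm
    · exact (map_intCast (algebraMap K Kb) _).trans (map_intCast _ _).symm
    · exact (map_intCast (algebraMap K Kb) _).trans (map_intCast _ _).symm
  · rw [show ((1 : VariableChange Kb).u : Kb) = 1 from rfl, map_one]

variable [HC]

section
variable {F : Type u} [Field F] [NumberField F] [Algebra K F]

/-- the primitive character of the curve -/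
theorem fdatE (hE : EllK) : ∃ m : Ideal (𝓞 F), FDat F (E F) m (psP (E F)) :=
  fdatP hE one_ne_zero (abW_E F)

/-- the primitive and the imprimitive character of the curve -/
theorem chW_E (hE : EllK) : ChW (E F) (Ideal.span {up HC.f F}) (indC (Ideal.span {up HC.f F})) := by
  have hne : Ideal.span {up HC.f F} ≠ 0 := by
    rw [Ne, Ideal.zero_eq_bot, Ideal.span_singleton_eq_bot]
    intro h0
    exact HC.hd.ne ((FaithfulSMul.algebraMap_injective (𝓞 K) (𝓞 F)) (by rw [map_zero]; exact h0))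
  have hmem : ∀ {v : HeightOneSpectrum (𝓞 F)}, ¬ Ideal.span {up HC.f F} ≤ v.asIdeal →
      HC.f ∉ (v.under (𝓞 K)).asIdeal := by
    intro v hv hf
    apply hv
    rw [Ideal.span_singleton_le_iff_mem]
    exact hf
  refine ⟨hne, rc_indC _, fun v hv => gd_E (hmem hv), fun v hv => ?_⟩
  have hcop : IsCoprime v.asIdeal (Ideal.span {up HC.f F}) := by
    by_contra h
    exact hv ((S4.le_iff_not_coprime _ v).2 h)
  rw [indC_of hcop, mul_one, hv_E hE (hmem hv)]
  rfl

theorem Lf_indE (B : Finset (HeightOneSpectrum (𝓞 F)))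
    (hB : ∀ v, v ∈ B ↔ Ideal.span {up HC.f F} ≤ v.asIdeal) (s : ℂ) (hs : 2 < s.re) :
    Lf (fun I => psbC F I * indC (Ideal.span {up HC.f F}) I) s = Lf (psbC F) s := by
  rw [Lf_indC _ B hB s hs]
  have e : ∏ v ∈ B, (1 - psbC F v.asIdeal * (Ideal.absNorm v.asIdeal : ℂ) ^ (-s)) = 1 := by
    refine Finset.prod_eq_one fun v hv => ?_
    rw [psbC_bad v ((Ideal.span_singleton_le_iff_mem _).1 ((hB v).1 hv)), zero_mul, sub_zero]
  rw [e, mul_one]

/-- the Euler factors do not vanish -/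
theorem eulR_ne {W : WeierstrassCurve F} {m : Ideal (𝓞 F)} (h : FDat F W m (psP W))
    (B : Finset (HeightOneSpectrum (𝓞 F))) : eulR W B 1 ≠ 0 := by
  refine Finset.prod_ne_zero_iff.2 fun v _ h0 => ?_
  have h1 : bC (psP W) v.asIdeal * (Ideal.absNorm v.asIdeal : ℂ) ^ (-(1 : ℂ)) = 1 := by
    linear_combination -h0
  have hN : (1 : ℝ) < (Ideal.absNorm v.asIdeal : ℝ) := by
    have h2 : Ideal.absNorm v.asIdeal ≠ 0 := fun h => v.ne_bot (Ideal.absNorm_eq_zero_iff.1 h)
    have h3 : Ideal.absNorm v.asIdeal ≠ 1 := fun h =>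
      v.isPrime.ne_top (Ideal.absNorm_eq_one_iff.1 h)
    have h4 : 1 < Ideal.absNorm v.asIdeal := by omega
    exact_mod_cast h4
  have h2 := congrArg (fun z : ℂ => ‖z‖) h1
  have h3 := norm_bC_le h v.asIdeal
  simp only [norm_mul, NormOneClass.norm_one] at h2
  have h4 : ‖(Ideal.absNorm v.asIdeal : ℂ) ^ (-(1 : ℂ))‖ = (Ideal.absNorm v.asIdeal : ℝ)⁻¹ := by
    rw [Complex.cpow_neg_one, norm_inv, Complex.norm_natCast]
  rw [h4] at h2
  have h5 : (Ideal.absNorm v.asIdeal : ℝ) ^ (1 / 2 : ℝ) < (Ideal.absNorm v.asIdeal : ℝ) := by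
    conv_rhs => rw [← Real.rpow_one (Ideal.absNorm v.asIdeal : ℝ)]
    exact Real.rpow_lt_rpow_of_exponent_lt hN (by norm_num)
  have h6 : ‖bC (psP W) v.asIdeal‖ = (Ideal.absNorm v.asIdeal : ℝ) := by
    have h7 : (Ideal.absNorm v.asIdeal : ℝ) ≠ 0 := by linarith
    field_simp at h2
    exact h2
  linarith

/-- from the primitive to the imprimitive character -/
theorem lgood_of_goodP (hE : EllK) (h : GoodP (psP (E F))) : LGood F := by
  obtain ⟨m, hm⟩ := fdatE (F := F) hE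
  have hc := chW_E (F := F) hE
  obtain ⟨B, hB⟩ := exists_B hc.ne
  obtain ⟨L, hL, hL1, hL2⟩ := h
  refine ⟨fun s => L s * eulR (E F) B s, hL.mul (differentiable_eulR B), fun s hs => ?_,
    mul_ne_zero hL2 (eulR_ne hm B)⟩
  change L s * eulR (E F) B s = _
  rw [hL1 s hs, ← ser_T hm hc hB s hs, Lf_indE B hB s hs]

/-- the nonvanishing over a field which contains `K` -/
theorem lgood_K (hE : EllK) (W : WeierstrassCurve F) (C : VariableChange F)
    (hC : C • W = E F) {g : ℂ → ℂ} (hg : Differentiable ℂ g)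
    (hgs : ∀ s : ℂ, 3 / 2 < s.re → g s = W.LSeries s) (h1 : g 1 ≠ 0) : LGood F := by
  obtain ⟨m, hm⟩ := fdatE (F := F) hE
  have hW := fdat_iso hm hC (ji_E F)
  obtain ⟨L, hL, hL1⟩ := PA.fdat_cont hm
  refine lgood_of_goodP hE ⟨L, hL, hL1, fun h0 => h1 ?_⟩
  have hgL : g = fun s => (starRingEnd ℂ) (L ((starRingEnd ℂ) s)) * L s := by
    refine entire_eq hg ((differentiable_conj_conj hL).mul hL) fun s hs => ?_
    change _ = (starRingEnd ℂ) (L ((starRingEnd ℂ) s)) * L s
    rw [hgs s (by linarith), LSeries_K' hW s (by linarith), hL1 s hs,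
      hL1 _ (by rw [Complex.conj_re]; exact hs), Lf_pC]
  rw [hgL]
  change (starRingEnd ℂ) (L ((starRingEnd ℂ) 1)) * L 1 = 0
  rw [h0, mul_zero]

/-- the nonvanishing over a field which does not contain `K` -/
theorem lgood_N (hE : EllK) {N : Type u} [Field N] [NumberField N] [Algebra N F]
    (h2 : finrank N F = 2) (hn : ∀ x : N, algebraMap N F x ≠ algebraMap K F om)
    (W : WeierstrassCurve N) (C : VariableChange F) (hC : C • W.map (algebraMap N F) = E F)
    {g : ℂ → ℂ} (hg : Differentiable ℂ g)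
    (hgs : ∀ s : ℂ, 3 / 2 < s.re → g s = W.LSeries s) (h1 : g 1 ≠ 0) : LGood F := by
  obtain ⟨m, hm⟩ := fdatE (F := F) hE
  have hfm : Fm (W.map (algebraMap N F)) := fm_iso C hC (fm_E F)
  have he := eulD_P hE h2 hn hfm
  rw [psP_iso C hC] at he
  refine lgood_of_goodP hE ⟨g, hg, fun s hs => ?_, h1⟩
  rw [hgs s (by linarith), LSeries_N' hm he s (by linarith)]

end

/-- **The nonvanishing over `F₀ = N₀ K`.** -/
theorem lgood_base (hE : EllK) {N₀ F₀ : Type} [Field N₀] [NumberField N₀] [Field F₀]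
    [NumberField F₀] [Algebra K F₀] [Algebra N₀ F₀]
    (hN : IntermediateField.adjoin N₀ (Set.range (algebraMap K F₀)) = ⊤)
    (W : WeierstrassCurve N₀) (C : VariableChange F₀) (hC : C • W.map (algebraMap N₀ F₀) = E F₀)
    {g : ℂ → ℂ} (hg : Differentiable ℂ g)
    (hgs : ∀ s : ℂ, 3 / 2 < s.re → g s = W.LSeries s) (h1 : g 1 ≠ 0) : LGood F₀ := by
  have hgen : IntermediateField.adjoin N₀ {algebraMap K F₀ om} = ⊤ := by
    rw [eq_top_iff, ← hN, IntermediateField.adjoin_le_iff]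
    rintro _ ⟨z, rfl⟩
    obtain ⟨a, b, rfl⟩ := exists_rat_coords z
    rw [map_add, map_mul, map_ratCast, map_ratCast]
    have h2 : ∀ q : ℚ, (q : F₀) ∈ IntermediateField.adjoin N₀ {algebraMap K F₀ om} := fun q => by
      have h3 := (IntermediateField.adjoin N₀ {algebraMap K F₀ om}).algebraMap_mem (q : N₀)
      rwa [map_ratCast] at h3
    exact add_mem (h2 a) (mul_mem (h2 b) (mem_adjoin_simple_self N₀ _))
  rcases exists_sub F₀ N₀ with ⟨aKN, hst⟩ | ⟨F, _, _, _, _, _, t1, t2, h2, hn⟩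
  · have hb : Function.Bijective (algebraMap N₀ F₀) := by
      refine ⟨(algebraMap N₀ F₀).injective, fun y => ?_⟩
      have h5 : y ∈ (⊥ : IntermediateField N₀ F₀) := by
        have h6 : IntermediateField.adjoin N₀ {algebraMap K F₀ om} ≤ ⊥ := by
          rw [adjoin_simple_le_iff, IntermediateField.mem_bot]
          exact ⟨algebraMap K N₀ om, (IsScalarTower.algebraMap_apply K N₀ F₀ om).symm⟩
        rw [hgen] at h6
        exact h6 mem_top
      exact IntermediateField.mem_bot.1 h5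
    let e : N₀ ≃ₐ[K] F₀ := AlgEquiv.ofBijective (IsScalarTower.toAlgHom K N₀ F₀) hb
    have he : ((e.symm : F₀ ≃ₐ[K] N₀) : F₀ →+* N₀).comp (algebraMap N₀ F₀) = RingHom.id N₀ :=
      RingHom.ext fun x => e.symm_apply_apply x
    refine TG.lgood_iso e (lgood_K hE W (C.map ((e.symm : F₀ ≃ₐ[K] N₀) : F₀ →+* N₀)) ?_ hg hgs h1)
    have h7 : (C • W.map (algebraMap N₀ F₀)).map ((e.symm : F₀ ≃ₐ[K] N₀) : F₀ →+* N₀) =
        (E F₀).map ((e.symm : F₀ ≃ₐ[K] N₀) : F₀ →+* N₀) := by rw [hC]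
    rw [← WeierstrassCurve.map_variableChange, WeierstrassCurve.map_map, he,
      WeierstrassCurve.map_id, TG.E_map] at h7
    exact h7
  · have hb : Function.Bijective (algebraMap F F₀) := by
      refine ⟨(algebraMap F F₀).injective, fun y => ?_⟩
      have h6 : IntermediateField.adjoin N₀ {algebraMap K F₀ om} ≤
          (IsScalarTower.toAlgHom N₀ F F₀).fieldRange := by
        rw [adjoin_simple_le_iff]
        exact ⟨algebraMap K F om, (IsScalarTower.algebraMap_apply K F F₀ om).symm⟩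
      rw [hgen] at h6
      obtain ⟨z, hz⟩ := h6 (mem_top (x := y))
      exact ⟨z, hz⟩
    let e : F ≃ₐ[K] F₀ := AlgEquiv.ofBijective (IsScalarTower.toAlgHom K F F₀) hb
    have he : ((e.symm : F₀ ≃ₐ[K] F) : F₀ →+* F).comp (algebraMap N₀ F₀) = algebraMap N₀ F :=
      RingHom.ext fun x => by
        change e.symm (algebraMap N₀ F₀ x) = algebraMap N₀ F x
        rw [IsScalarTower.algebraMap_apply N₀ F F₀]
        exact e.symm_apply_apply _
    refine TG.lgood_iso e (lgood_N hE h2 hn W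
      (C.map ((e.symm : F₀ ≃ₐ[K] F) : F₀ →+* F)) ?_ hg hgs h1)
    have h7 : (C • W.map (algebraMap N₀ F₀)).map ((e.symm : F₀ ≃ₐ[K] F) : F₀ →+* F) =
        (E F₀).map ((e.symm : F₀ ≃ₐ[K] F) : F₀ →+* F) := by rw [hC]
    rw [← WeierstrassCurve.map_variableChange, WeierstrassCurve.map_map, he, TG.E_map] at h7
    exact h7

end Pool.Agent.Lib.MP_1a91b9_nuX.TH
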