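import Pool.Agent.Lib.MP_1a91b9_nuX.TH.Top
import Pool.Agent.Lib.MP_1a91b9_nuX.TH.Lg
import Pool.Agent.Lib.MP_1a91b9_nuX.TG.Main

/-!
# Theorem G5: all the elliptic curves with complex multiplication over the fields of a tower

As Theorem G3 (`TG.thmX`), without a condition on the ramification of the base field and without a condition on the
isomorphism class of the curve `W` over `N`.
-/

set_option autoImplicit false

namespace Pool.Agent.Lib.MP_1a91b9_nuX.TH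

open NumberField IsDedekindDomain Module WeierstrassCurve Pool.Agent.Lib.MP_1a91b9_nuT
open Pool.Agent.Lib.MP_1a91b9_nt
open Pool.Agent.Lib.MP_1a91b9_nuX.DB
open Pool.Agent.Lib.MP_1a91b9_nuX.TG

/-- The conclusion for all the fields of the tower and all the curves `W` over `N` which become isomorphic to
`y² = x³ + A x + B` over `L`. -/
def TowH (ℓ : ℕ) (A B c : ℤ) (F₀ : Type) [Field F₀] [NumberField F₀] : Prop :=
  ∀ (n : ℕ) (N L M : Type) [Field N] [NumberField N] [Field L] [NumberField L] [Field M]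
    [NumberField M] [Algebra N L] [Algebra F₀ L] [Algebra L M] [Algebra F₀ M]
    [IsScalarTower F₀ L M] [IsGalois F₀ M], finrank F₀ M = ℓ ^ n → RamX ℓ A B c F₀ L →
    ∀ (W : WeierstrassCurve N) (C : VariableChange L),
      C • W.baseChange L = ⟨0, 0, 0, ((A : ℤ) : L), ((B : ℤ) : L)⟩ →
      ConclR W ∧ ∀ _ : Fact ℓ.Prime, MP_1a91b9_nuT.PL.Concl ℓ W

section
variable [CD] [HC] {N₀ F₀ L₀ : Type} [Field N₀] [NumberField N₀] [Field F₀] [NumberField F₀]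
  [Algebra K F₀] [Algebra N₀ F₀] [Field L₀] [NumberField L₀] [Algebra K L₀] [Algebra F₀ L₀]
  [IsScalarTower K F₀ L₀] [DecidableEq L₀]

/-- **Theorem G5** over the concrete field `K`. -/
theorem thmX_K (hE : GL.EllK) {A₀ B₀ k c : ℤ} (hk : k ≠ 0) (hA : CD.A = k ^ 4 * A₀)
    (hB : CD.B = k ^ 6 * B₀) (hc : c ≠ 0)
    (hN : IntermediateField.adjoin N₀ (Set.range (algebraMap K F₀)) = ⊤) (x y : L₀)
    (hxy : (⟨0, 0, 0, ((A₀ : ℤ) : L₀), ((B₀ : ℤ) : L₀)⟩ :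
      WeierstrassCurve L₀).toAffine.Nonsingular x y)
    (ht : IsOfFinAddOrder (Affine.Point.some x y hxy))
    (hL₀ : IntermediateField.adjoin K {x, y} = ⊤)
    (hg : ∃ g : ℂ → ℂ, Differentiable ℂ g ∧ (∀ s : ℂ, 3 / 2 < s.re →
      g s = (⟨0, 0, 0, ((A₀ : ℤ) : N₀), ((B₀ : ℤ) : N₀)⟩ : WeierstrassCurve N₀).LSeries s) ∧
      g 1 ≠ 0) :
    ∃ S : Finset ℕ, ∀ ℓ : ℕ, ℓ.Prime → ℓ ∉ S → TowH ℓ A₀ B₀ c F₀ := by
  obtain ⟨T, n₀, hn₀, hT, hx, hy⟩ := scale_tors hk hA hB x y hxy ht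
  have hgen := scale_gen hk hx hy hL₀
  obtain ⟨μ, hμ, hO⟩ := exists_ann hn₀ hT
  have hGal : IsGalois K L₀ := gal_of_gen hμ hO hgen
  have hAb : AbT μ K T := ⟨hμ, hO, eq_one_of_gen hgen⟩
  obtain ⟨g, hg1, hg2, hg3⟩ := hg
  obtain ⟨C₀, hC₀⟩ := scale_curve hk hA hB (F := N₀)
    (W := ⟨0, 0, 0, ((A₀ : ℤ) : N₀), ((B₀ : ℤ) : N₀)⟩) (C := 1) (one_smul _ _)
  have hgood : AN.LGood F₀ := lgood_base hE hN
    (⟨0, 0, 0, ((A₀ : ℤ) : N₀), ((B₀ : ℤ) : N₀)⟩ : WeierstrassCurve N₀)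
    (C₀.map (algebraMap N₀ F₀)) (by
      rw [WeierstrassCurve.map_variableChange, hC₀, TG.E_map]) hg1 hg2 hg3
  have hbase : BaseThm F₀ := DG.base_all hn₀ hT hgen hgood
  have hcb : ((c * CD.bad : ℤ) : 𝓞 K) ≠ 0 :=
    Int.cast_ne_zero.2 (mul_ne_zero hc CD.bad_ne)
  have hcd : ((CD.bad : ℤ) : 𝓞 K) ∣ ((c * CD.bad : ℤ) : 𝓞 K) :=
    map_dvd (Int.castRingHom (𝓞 K)) (Dvd.intro_left c rfl)
  obtain ⟨n, hn, H⟩ := goodEllH_almost hE hAb hgood hbase hcb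
  refine ⟨n.primeFactors, fun ℓ hℓ hS => ?_⟩
  have hdv : ¬ ℓ ∣ n := fun h => hS (Nat.mem_primeFactors.2 ⟨hℓ, h, hn⟩)
  intro m N L M _ _ _ _ _ _ _ _ _ _ _ _ hM hL W C hC
  obtain ⟨C', hC'⟩ := scale_curve hk hA hB hC
  have hR := scale_ram hk hA hB hL
  exact ⟨conclH_ell hE hAb hcd (H ℓ hℓ hdv) N L M m hM hR W C' hC',
    fun hF => conclP_ell hE hAb hcd (H ℓ hℓ hdv) N L M m hM hR W C' hC'⟩

end

/-- **Theorem G5.** -/
theorem thmX [CD] [HC] (hE : GL.EllK) (K₀ N₀ F₀ L₀ : Type) [Field K₀] [NumberField K₀]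
    (hK : finrank ℚ K₀ = 2)
    {w : K₀} (hw : w ^ 2 = (CD.tr : K₀) * w - (CD.nm : K₀)) [Field N₀] [NumberField N₀] [Field F₀]
    [NumberField F₀] [Field L₀] [NumberField L₀] [DecidableEq L₀] [Algebra K₀ F₀] [Algebra N₀ F₀]
    [Algebra K₀ L₀] [Algebra F₀ L₀] [IsScalarTower K₀ F₀ L₀] {A₀ B₀ k c : ℤ} (hk : k ≠ 0)
    (hA : CD.A = k ^ 4 * A₀) (hB : CD.B = k ^ 6 * B₀) (hc : c ≠ 0)
    (hN : IntermediateField.adjoin N₀ (Set.range (algebraMap K₀ F₀)) = ⊤) (x y : L₀)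
    (hxy : (⟨0, 0, 0, ((A₀ : ℤ) : L₀), ((B₀ : ℤ) : L₀)⟩ :
      WeierstrassCurve L₀).toAffine.Nonsingular x y)
    (ht : IsOfFinAddOrder (Affine.Point.some x y hxy))
    (hL₀ : IntermediateField.adjoin K₀ {x, y} = ⊤)
    (hg : ∃ g : ℂ → ℂ, Differentiable ℂ g ∧ (∀ s : ℂ, 3 / 2 < s.re →
      g s = (⟨0, 0, 0, ((A₀ : ℤ) : N₀), ((B₀ : ℤ) : N₀)⟩ : WeierstrassCurve N₀).LSeries s) ∧
      g 1 ≠ 0) :
    ∃ S : Finset ℕ, ∀ ℓ : ℕ, ℓ.Prime → ℓ ∉ S → TowH ℓ A₀ B₀ c F₀ := by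
  obtain ⟨e, he⟩ := MP_1a91b9_nuT3.S8.exists_equiv hK hw
  let aF : Algebra K F₀ := ((algebraMap K₀ F₀).comp e.toRingHom).toAlgebra
  let aL : Algebra K L₀ := ((algebraMap K₀ L₀).comp e.toRingHom).toAlgebra
  have hFe : ∀ x : K, algebraMap K F₀ x = algebraMap K₀ F₀ (e x) := fun x => rfl
  have hLe : ∀ x : K, algebraMap K L₀ x = algebraMap K₀ L₀ (e x) := fun x => rfl
  have hst : IsScalarTower K F₀ L₀ := IsScalarTower.of_algebraMap_eq fun x => by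
    rw [hLe, hFe]
    exact IsScalarTower.algebraMap_apply K₀ F₀ L₀ (e x)
  have hrange : Set.range (algebraMap K F₀) = Set.range (algebraMap K₀ F₀) := by
    ext z
    constructor
    · rintro ⟨u, rfl⟩
      exact ⟨e u, rfl⟩
    · rintro ⟨u, rfl⟩
      exact ⟨e.symm u, by rw [hFe, RingEquiv.apply_symm_apply]⟩
  have hgen : IntermediateField.adjoin K {x, y} = (⊤ : IntermediateField K L₀) := by
    obtain ⟨A, hA⟩ : ∃ A : IntermediateField K L₀, A = IntermediateField.adjoin K {x, y} :=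
      ⟨_, rfl⟩
    let B : IntermediateField K₀ L₀ := A.toSubfield.toIntermediateField fun z => by
      change algebraMap K₀ L₀ z ∈ A
      have h4 := A.algebraMap_mem (e.symm z)
      rwa [hLe, RingEquiv.apply_symm_apply] at h4
    have hB : B = ⊤ := by
      rw [eq_top_iff, ← hL₀, IntermediateField.adjoin_le_iff]
      intro z hz
      change z ∈ A
      rw [hA]
      exact IntermediateField.subset_adjoin K {x, y} hz
    rw [← hA, eq_top_iff]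
    intro z _
    have h4 : z ∈ B := by
      rw [hB]
      exact IntermediateField.mem_top
    exact h4
  exact thmX_K hE hk hA hB hc (by rw [hrange]; exact hN) x y hxy ht hgen hg

end Pool.Agent.Lib.MP_1a91b9_nuX.TH
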