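import Pool.Agent.Lib.MP_1a91b9_nuX.PH.Hv
import Pool.Agent.Lib.MP_1a91b9_nuX.TG.Exc
import Pool.Agent.Lib.MP_1a91b9_nuX.TG.Fin
import Pool.Agent.Lib.MP_1a91b9_nuX.TC.Frb
import Pool.Agent.Lib.MP_1a91b9_nuX.LF.NiceD
import Pool.Agent.Lib.MP_1a91b9_nuX.LG.Iso
import Pool.Agent.Lib.MP_1a91b9_nuT.TG.GoodK

/-!
# The places of good reduction above `c` are not anomalous

`NaE ℓ c F`: at the places of `F` above `c` where the curve has good reduction, the value of the Hecke character minus one is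
prime to `ℓ`.
-/

set_option autoImplicit false

namespace Pool.Agent.Lib.MP_1a91b9_nuX.TH

open NumberField IsDedekindDomain WeierstrassCurve Module Pool.Agent.Lib.MP_1a91b9_nuT
open Pool.Agent.Lib.MP_1a91b9_nt
open Pool.Agent.Lib.MP_1a91b9_nuX.DB Pool.Agent.Lib.MP_1a91b9_nuX.GL
open Pool.Agent.Lib.MP_1a91b9_nuX.PG (Gd)
open Pool.Agent.Lib.MP_1a91b9_nuX.PH
open Pool.Agent.Lib.MP_1a91b9_nuX.TG (cop_almost)
open Pool.Agent.Lib.MP_1a91b9_nuT.TG (cop_powN)

universe u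

variable [CD]

/-- the curve of `CD` is a form of itself -/
theorem fm_E (F : Type u) [Field F] [NumberField F] [Algebra K F] : Fm (E F) := by
  have hF : Algebra.IsAlgebraic K F := by
    have h1 : Algebra.IsAlgebraic ℚ F := Algebra.IsAlgebraic.of_finite ℚ F
    exact Algebra.IsAlgebraic.tower_top (K := ℚ) K
  refine ⟨IsAlgClosed.lift, 1, ?_⟩
  rw [one_smul]
  refine WeierstrassCurve.ext ?_ ?_ ?_ ?_ ?_
  · exact (map_zero (algebraMap K Kb)).trans (map_zero _).symm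
  · exact (map_zero (algebraMap K Kb)).trans (map_zero _).symm
  · exact (map_zero (algebraMap K Kb)).trans (map_zero _).symm
  · exact (map_intCast (algebraMap K Kb) _).trans (map_intCast _ _).symm
  · exact (map_intCast (algebraMap K Kb) _).trans (map_intCast _ _).symm

/-- the places above `c` where the curve `W` has good reduction are not anomalous -/
def NaW (ℓ : ℕ) (c : 𝓞 K) {F : Type u} [Field F] [NumberField F] [Algebra K F]
    (W : WeierstrassCurve F) : Prop :=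
  ∀ w : HeightOneSpectrum (𝓞 F), MP_1a91b9_nuG.up c F ∈ w.asIdeal → Gd W w →
    IsCoprime (Hv W w - 1) (ℓ : 𝓞 K)

/-- the value of the Hecke character is not `1` -/
theorem hv_ne_one (hE : EllK) {F : Type u} [Field F] [NumberField F] [Algebra K F]
    {W : WeierstrassCurve F} (hW : Fm W) {w : HeightOneSpectrum (𝓞 F)} (hg : Gd W w) :
    Hv W w ≠ 1 := by
  intro h
  have h1 := hv_span hE hW hg
  rw [h, Ideal.span_singleton_one] at h1
  have h2 := congrArg Ideal.absNorm h1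
  rw [Ideal.absNorm_relNorm (𝓞 K) (𝓞 F), Ideal.absNorm_top] at h2
  exact w.isPrime.ne_top (Ideal.absNorm_eq_one_iff.mp h2.symm)

/-- almost all primes are good -/
theorem naW_almost [HC] (hE : EllK) {c : 𝓞 K} (hc : c ≠ 0) {F : Type u} [Field F] [NumberField F]
    [Algebra K F] {W : WeierstrassCurve F} (hW : Fm W) :
    ∃ n : ℕ, n ≠ 0 ∧ ∀ ℓ : ℕ, ℓ.Prime → ¬ ℓ ∣ n → NaW ℓ c W := by
  classical
  have h0 : MP_1a91b9_nuG.up c F ≠ 0 := fun h0 =>
    hc ((FaithfulSMul.algebraMap_injective (𝓞 K) (𝓞 F)) (by rw [map_zero]; exact h0))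
  have hI : Ideal.span {MP_1a91b9_nuG.up c F} ≠ 0 := by
    rw [Ne, Ideal.zero_eq_bot, Ideal.span_singleton_eq_bot]
    exact h0
  have hfin : {v : HeightOneSpectrum (𝓞 F) | MP_1a91b9_nuG.up c F ∈ v.asIdeal}.Finite := by
    refine (Ideal.finite_factors hI).subset fun v hv => ?_
    exact Ideal.dvd_span_singleton.mpr hv
  have hex : ∀ w : HeightOneSpectrum (𝓞 F), ∃ n : ℕ, n ≠ 0 ∧ ∀ ℓ : ℕ, ℓ.Prime → ¬ ℓ ∣ n →
      Gd W w → IsCoprime (Hv W w - 1) (ℓ : 𝓞 K) := by
    intro w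
    by_cases hg : Gd W w
    · obtain ⟨n, h1, h2⟩ := cop_almost (hv_ne_one hE hW hg)
      exact ⟨n, h1, fun ℓ hℓ hd _ => h2 ℓ hℓ hd⟩
    · exact ⟨1, one_ne_zero, fun ℓ hℓ hd h => absurd h hg⟩
  choose n hn0 hn using hex
  refine ⟨∏ v ∈ hfin.toFinset, n v, Finset.prod_ne_zero_iff.2 fun v _ => hn0 v,
    fun ℓ hℓ hd v hv hg => hn v ℓ hℓ (fun h => hd (h.trans ?_)) hg⟩
  exact Finset.dvd_prod_of_mem _ ((Set.Finite.mem_toFinset hfin).2 hv)

/-- good reduction goes up -/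
theorem gd_up {N F : Type*} [Field N] [NumberField N] [Field F] [NumberField F] [Algebra N F]
    {W : WeierstrassCurve N} {w : HeightOneSpectrum (𝓞 F)}
    (h : Gd W (w.under (𝓞 N))) : Gd (W.map (algebraMap N F)) w := by
  classical
  obtain ⟨C, hC⟩ := h
  refine ⟨C.map (algebraMap N F), ?_⟩
  rw [WeierstrassCurve.map_variableChange]
  exact GM.good_map (GM.val_under w) hC

section
variable {N F : Type u} [Field N] [NumberField N] [Algebra K N] [Field F] [NumberField F]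
  [Algebra K F] [Algebra N F] [IsScalarTower K N F]

/-- a form over a larger field -/
theorem fm_up {W : WeierstrassCurve N} (h : Fm (W.map (algebraMap N F))) : Fm W := by
  obtain ⟨ι, D, hD⟩ := h
  refine ⟨ι.comp (IsScalarTower.toAlgHom K N F), D, ?_⟩
  rw [hD, WeierstrassCurve.map_map]
  rfl

omit [Algebra K N] [Algebra K F] [IsScalarTower K N F] in
theorem fm_iso {F : Type u} [Field F] [NumberField F] [Algebra K F] {W W' : WeierstrassCurve F}
    (C : VariableChange F) (hC : C • W = W') (h : Fm W') : Fm W := by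
  obtain ⟨ι, D, hD⟩ := h
  refine ⟨ι, (C.map (ι : F →+* Kb))⁻¹ * D, ?_⟩
  rw [mul_smul, hD, ← hC, ← WeierstrassCurve.map_variableChange, inv_smul_smul]

omit [Algebra K N] [Algebra K F] [IsScalarTower K N F] in
theorem naW_iso {ℓ : ℕ} {c : 𝓞 K} {F : Type u} [Field F] [NumberField F] [Algebra K F]
    {W W' : WeierstrassCurve F} (C : VariableChange F) (hC : C • W = W') (h : NaW ℓ c W') :
    NaW ℓ c W := by
  intro w hw hg
  rw [hv_iso C hC]
  exact h w hw ((LG.gd_iso hC w).1 hg)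

/-- the condition goes down -/
theorem naW_down (hE : EllK) {ℓ : ℕ} {c : 𝓞 K} {W : WeierstrassCurve N} (hW : Fm W)
    (h : NaW ℓ c (W.map (algebraMap N F))) : NaW ℓ c W := by
  intro v hv hg
  obtain ⟨w, rfl⟩ : ∃ w : HeightOneSpectrum (𝓞 F), w.under (𝓞 N) = v := by
    obtain ⟨w, hw⟩ := S5.exists_above (K := N) F v
    exact ⟨w, hw⟩
  have h1 := h w (by
    have e : MP_1a91b9_nuG.up c F = algebraMap (𝓞 N) (𝓞 F) (MP_1a91b9_nuG.up c N) :=
      (MP_1a91b9_nuT3.S8.algebraMap_tower (F := N) (F' := F) c).symm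
    rw [e]
    exact hv) (gd_up hg)
  rw [hv_up hE hW w hg] at h1
  refine h1.of_isCoprime_of_dvd_left ?_
  have h2 := sub_dvd_pow_sub_pow (Hv W (w.under (𝓞 N))) 1 (w.asIdeal.inertiaDeg (𝓞 N))
  rwa [one_pow] at h2

/-- the condition goes up in a Galois extension of degree a power of `ℓ` -/
theorem naW_up (hE : EllK) {ℓ : ℕ} (hℓ : ℓ.Prime) (h6 : ℓ.Coprime 6) {c : 𝓞 K} [IsGalois N F]
    {n : ℕ} (hd : finrank N F = ℓ ^ n) (h : NaW ℓ c (E N)) : NaW ℓ c (E F) := by
  intro w hw hg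
  obtain ⟨h1, h2⟩ := MP_1a91b9_nuT3.EF.ef_dvd (w.under (𝓞 N)) w rfl
  have h3 : w.asIdeal.ramificationIdx (𝓞 N) ∣ ℓ ^ n := by
    rw [← hd]
    exact LF.ram_dvd w
  have h4 : (ℓ ^ n).Coprime 48 := by
    have h5 := (h6.pow_left n).pow_right 4
    exact Nat.Coprime.coprime_dvd_right (by norm_num) h5
  have hg0 : Gd (E N) (w.under (𝓞 N)) :=
    LF.good_down LF.inEx_48 (Nat.Coprime.coprime_dvd_left h3 h4) hg
  have e1 : (E N).map (algebraMap N F) = E F := TG.E_map _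
  have e2 := hv_up (F' := F) hE (fm_E N) w hg0
  rw [e1] at e2
  rw [e2]
  refine cop_powN hℓ (h _ ?_ hg0) (n := n) ?_
  · have e : MP_1a91b9_nuG.up c F = algebraMap (𝓞 N) (𝓞 F) (MP_1a91b9_nuG.up c N) :=
      (MP_1a91b9_nuT3.S8.algebraMap_tower (F := N) (F' := F) c).symm
    rw [e] at hw
    exact hw
  · rw [← hd]
    exact h1

end

end Pool.Agent.Lib.MP_1a91b9_nuX.TH
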